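import Mathlib

set_option autoImplicit false

open MeasureTheory Complex
open scoped ComplexConjugate InnerProductSpace

namespace Pool.Agent.Helper421.BargmannDefs

/-- The measure `μ` on `ℂⁿ` with density `e^{-|z|²}` with respect to Lebesgue measure. -/
noncomputable def gaussMeasure (n : ℕ) : Measure (Fin n → ℂ) :=
  (volume : Measure (Fin n → ℂ)).withDensity
    (fun z => ENNReal.ofReal (Real.exp (-∑ i, ‖z i‖ ^ 2)))

/-- The Hilbert space `L²(μ)`. -/
def L2 (n : ℕ) : Type := Lp ℂ 2 (gaussMeasure n)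

noncomputable instance (n : ℕ) : NormedAddCommGroup (L2 n) :=
  Lp.instNormedAddCommGroup (E := ℂ) (p := 2) (μ := gaussMeasure n)

noncomputable instance (n : ℕ) : InnerProductSpace ℂ (L2 n) :=
  L2.innerProductSpace (𝕜 := ℂ) (E := ℂ) (μ := gaussMeasure n)

instance (n : ℕ) : CompleteSpace (L2 n) :=
  inferInstanceAs (CompleteSpace (Lp ℂ 2 (gaussMeasure n)))

/-- A function representing the class `f`. -/
noncomputable def rep {n : ℕ} (f : L2 n) : (Fin n → ℂ) → ℂ :=
  let g : Lp ℂ 2 (gaussMeasure n) := f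
  g

/-- The class in `L²(μ)` of a square integrable function. -/
noncomputable def cls {n : ℕ} (F : (Fin n → ℂ) → ℂ) (hF : MemLp F 2 (gaussMeasure n)) : L2 n :=
  hF.toLp F

lemma rep_zero (n : ℕ) : rep (0 : L2 n) =ᵐ[gaussMeasure n] 0 := Lp.coeFn_zero ℂ 2 (gaussMeasure n)

lemma rep_add {n : ℕ} (f g : L2 n) : rep (f + g) =ᵐ[gaussMeasure n] rep f + rep g :=
  Lp.coeFn_add (E := ℂ) (p := 2) (μ := gaussMeasure n) f g

lemma rep_smul {n : ℕ} (c : ℂ) (f : L2 n) : rep (c • f) =ᵐ[gaussMeasure n] c • rep f :=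
  Lp.coeFn_smul (E := ℂ) (p := 2) (μ := gaussMeasure n) c f

/-- `f` has an entire representative. -/
def HasEntireRep {n : ℕ} (f : L2 n) : Prop :=
  ∃ F : (Fin n → ℂ) → ℂ, AnalyticOnNhd ℂ F Set.univ ∧ rep f =ᵐ[gaussMeasure n] F

lemma hasEntireRep_zero (n : ℕ) : HasEntireRep (0 : L2 n) :=
  ⟨fun _ => 0, analyticOnNhd_const, rep_zero n⟩

lemma hasEntireRep_add {n : ℕ} {f g : L2 n} (hf : HasEntireRep f)
    (hg : HasEntireRep g) : HasEntireRep (f + g) := by
  obtain ⟨F, hF, hfF⟩ := hf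
  obtain ⟨G, hG, hgG⟩ := hg
  exact ⟨F + G, hF.add hG, (rep_add f g).trans (hfF.add hgG)⟩

lemma hasEntireRep_smul {n : ℕ} (c : ℂ) {f : L2 n} (hf : HasEntireRep f) :
    HasEntireRep (c • f) := by
  obtain ⟨F, hF, hfF⟩ := hf
  refine ⟨c • F, hF.const_smul, (rep_smul c f).trans ?_⟩
  exact hfF.const_smul c

/-- The classes in `L²(μ)` that have an entire representative. -/
noncomputable def entireClasses (n : ℕ) : Submodule ℂ (L2 n) where
  carrier := {f | HasEntireRep f}
  zero_mem' := hasEntireRep_zero n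
  add_mem' := hasEntireRep_add
  smul_mem' c _ hf := hasEntireRep_smul c hf

/-- The Bargmann-Segal space `H²(μ)`, as a closed subspace of `L²(μ)`. -/
noncomputable def Fock (n : ℕ) : Submodule ℂ (L2 n) := (entireClasses n).topologicalClosure

lemma complete_fock (n : ℕ) : CompleteSpace (Fock n) :=
  (Submodule.isClosed_topologicalClosure (entireClasses n)).completeSpace_coe

/-- The Bargmann-Segal space as a Hilbert space. -/
def H2 (n : ℕ) : Type := Fock n

noncomputable instance (n : ℕ) : NormedAddCommGroup (H2 n) :=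
  Submodule.normedAddCommGroup (Fock n)

noncomputable instance (n : ℕ) : InnerProductSpace ℂ (H2 n) :=
  Submodule.innerProductSpace (Fock n)

instance (n : ℕ) : CompleteSpace (Fock n) := complete_fock n

instance (n : ℕ) : CompleteSpace (H2 n) := complete_fock n

/-- The inclusion of `H²(μ)` in `L²(μ)`. -/
def incl {n : ℕ} (f : H2 n) : L2 n := (f : Fock n).1

lemma incl_zero (n : ℕ) : incl (0 : H2 n) = 0 := rfl

lemma incl_add {n : ℕ} (f g : H2 n) : incl (f + g) = incl f + incl g := rfl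

lemma incl_smul {n : ℕ} (c : ℂ) (f : H2 n) : incl (c • f) = c • incl f := rfl

/-- The orthogonal projection `P` of `L²(μ)` onto `H²(μ)`. -/
noncomputable def proj (n : ℕ) : L2 n →ₗ[ℂ] H2 n :=
  ((Fock n).orthogonalProjectionOnto : L2 n →ₗ[ℂ] Fock n)

/-- `f` is in the domain of `T_φ`, that is, `φ f` is in `L²(μ)`. -/
def InDomain {n : ℕ} (φ : (Fin n → ℂ) → ℂ) (f : H2 n) : Prop :=
  MemLp (fun z => φ z * rep (incl f) z) 2 (gaussMeasure n)

lemma inDomain_zero {n : ℕ} (φ : (Fin n → ℂ) → ℂ) : InDomain φ (0 : H2 n) := by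
  have h : (fun z => φ z * rep (incl (0 : H2 n)) z) =ᵐ[gaussMeasure n] fun _ => (0 : ℂ) := by
    filter_upwards [rep_zero n] with z hz
    rw [incl_zero, hz]
    simp
  exact (memLp_congr_ae h).mpr MemLp.zero

lemma inDomain_add {n : ℕ} {φ : (Fin n → ℂ) → ℂ} {f g : H2 n} (hf : InDomain φ f)
    (hg : InDomain φ g) : InDomain φ (f + g) := by
  refine (memLp_congr_ae ?_).mp (MemLp.add hf hg)
  filter_upwards [rep_add (incl f) (incl g)] with z hz
  rw [incl_add, hz]
  simp [mul_add]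

lemma inDomain_smul {n : ℕ} {φ : (Fin n → ℂ) → ℂ} (c : ℂ) {f : H2 n} (hf : InDomain φ f) :
    InDomain φ (c • f) := by
  refine (memLp_congr_ae ?_).mp (MemLp.const_smul hf c)
  filter_upwards [rep_smul c (incl f)] with z hz
  rw [incl_smul, hz]
  simp only [Pi.smul_apply, smul_eq_mul]
  ring

/-- The domain of `T_φ`: those `f` in `H²(μ)` with `φ f` in `L²(μ)`. -/
noncomputable def toeplitzDomain (n : ℕ) (φ : (Fin n → ℂ) → ℂ) : Submodule ℂ (H2 n) where
  carrier := {f | InDomain φ f}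
  zero_mem' := inDomain_zero φ
  add_mem' := inDomain_add
  smul_mem' c _ hf := inDomain_smul c hf

/-- The class of `φ f` in `L²(μ)`, for `f` in the domain of `T_φ`. -/
noncomputable def mulFun {n : ℕ} (φ : (Fin n → ℂ) → ℂ) (f : toeplitzDomain n φ) : L2 n :=
  cls (fun z => φ z * rep (incl f.1) z) f.2

lemma cls_congr {n : ℕ} {F G : (Fin n → ℂ) → ℂ} (hF : MemLp F 2 (gaussMeasure n))
    (hG : MemLp G 2 (gaussMeasure n)) (h : F =ᵐ[gaussMeasure n] G) : cls F hF = cls G hG :=
  MemLp.toLp_congr hF hG h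

lemma mulFun_add {n : ℕ} {φ : (Fin n → ℂ) → ℂ} (f g : toeplitzDomain n φ) :
    mulFun φ (f + g) = mulFun φ f + mulFun φ g := by
  refine Eq.trans ?_ (MemLp.toLp_add f.2 g.2)
  refine cls_congr _ _ ?_
  filter_upwards [rep_add (incl f.1) (incl g.1)] with z hz
  rw [Submodule.coe_add, incl_add, hz]
  simp [mul_add]

lemma mulFun_smul {n : ℕ} {φ : (Fin n → ℂ) → ℂ} (c : ℂ) (f : toeplitzDomain n φ) :
    mulFun φ (c • f) = c • mulFun φ f := by
  refine Eq.trans ?_ (MemLp.toLp_const_smul c f.2)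
  refine cls_congr _ _ ?_
  filter_upwards [rep_smul c (incl f.1)] with z hz
  rw [Submodule.coe_smul, incl_smul, hz]
  simp only [Pi.smul_apply, smul_eq_mul]
  ring

/-- Multiplication by `φ`, from the domain of `T_φ` to `L²(μ)`. -/
noncomputable def mulClass (n : ℕ) (φ : (Fin n → ℂ) → ℂ) : toeplitzDomain n φ →ₗ[ℂ] L2 n where
  toFun f := mulFun φ f
  map_add' := mulFun_add
  map_smul' := mulFun_smul

/-- The Toeplitz operator `T_φ f = P (φ f)` on `H²(μ)`. -/
noncomputable def toeplitz (n : ℕ) (φ : (Fin n → ℂ) → ℂ) : H2 n →ₗ.[ℂ] H2 n where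
  domain := toeplitzDomain n φ
  toFun := proj n ∘ₗ mulClass n φ

/-- The function on `ℂⁿ` given by a polynomial in `z` (the variables `Sum.inl i`) and `z̄`
(the variables `Sum.inr i`). -/
noncomputable def symbol {n : ℕ} (p : MvPolynomial (Fin n ⊕ Fin n) ℂ) (z : Fin n → ℂ) : ℂ :=
  MvPolynomial.eval (Sum.elim z (fun i => conj (z i))) p

/-- `A` has compact resolvent: for some `lam` in the resolvent set of `A` the resolvent
`(lam - A)⁻¹` is a compact operator. -/
def HasCompactResolvent {H : Type} [NormedAddCommGroup H] [InnerProductSpace ℂ H]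
    (A : H →ₗ.[ℂ] H) : Prop :=
  ∃ (lam : ℂ) (R : H →L[ℂ] H), IsCompactOperator R ∧
    (∀ u : H, ∃ h : R u ∈ A.domain, lam • R u - A ⟨R u, h⟩ = u) ∧
    (∀ f : A.domain, R (lam • (f : H) - A f) = f)

/-- `T_φ` is closable. -/
def ToeplitzClosable (n : ℕ) (φ : (Fin n → ℂ) → ℂ) : Prop := (toeplitz n φ).IsClosable

/-- The closure of `T_φ` has compact resolvent. -/
def ToeplitzCompactResolvent (n : ℕ) (φ : (Fin n → ℂ) → ℂ) : Prop :=
  HasCompactResolvent (toeplitz n φ).closure

end Pool.Agent.Helper421.BargmannDefs
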