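import Mathlib

set_option autoImplicit false

open Filter Topology
open scoped InnerProductSpace

namespace Pool.Agent.Helper421.CompactRes

variable {H : Type} [NormedAddCommGroup H] [InnerProductSpace ℂ H]

/-- `A` has compact resolvent: for some `lam` in the resolvent set of `A` the resolvent
`(lam - A)⁻¹` is a compact operator. -/
def HasCompactResolvent (A : H →ₗ.[ℂ] H) : Prop :=
  ∃ (lam : ℂ) (R : H →L[ℂ] H), IsCompactOperator R ∧
    (∀ u : H, ∃ h : R u ∈ A.domain, lam • R u - A ⟨R u, h⟩ = u) ∧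
    (∀ f : A.domain, R (lam • (f : H) - A f) = f)

section diag

variable {ι : Type} [CompleteSpace H] (b : HilbertBasis ι ℂ H) (c : ι → ℂ)

lemma memlp_mul (hc : ∀ i, ‖c i‖ ≤ 1) (x : lp (fun _ : ι => ℂ) 2) :
    Memℓp (fun i => c i * x i) 2 := by
  have hx := lp.memℓp x
  refine memℓp_gen ?_
  have h2 := hx.summable (by norm_num)
  refine Summable.of_nonneg_of_le (fun i => by positivity) (fun i => ?_) h2
  rw [norm_mul]
  apply Real.rpow_le_rpow (by positivity) _ (by norm_num)
  calc ‖c i‖ * ‖x i‖ ≤ 1 * ‖x i‖ := mul_le_mul_of_nonneg_right (hc i) (norm_nonneg _)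
    _ = ‖x i‖ := one_mul _

/-- diagonal operator on `ℓ²` -/
noncomputable def diagL (hc : ∀ i, ‖c i‖ ≤ 1) :
    lp (fun _ : ι => ℂ) 2 →ₗ[ℂ] lp (fun _ : ι => ℂ) 2 where
  toFun x := ⟨fun i => c i * x i, memlp_mul c hc x⟩
  map_add' x y := by
    ext i
    simp only [lp.coeFn_add, Pi.add_apply, mul_add]
  map_smul' r x := by
    ext i
    simp
    ring

lemma diagL_apply (hc : ∀ i, ‖c i‖ ≤ 1) (x : lp (fun _ : ι => ℂ) 2) (i : ι) :
    (diagL c hc x : ι → ℂ) i = c i * x i := rfl

lemma norm_le_of_le {x y : lp (fun _ : ι => ℂ) 2} {C : ℝ} (hC : 0 ≤ C)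
    (h : ∀ i, ‖x i‖ ≤ C * ‖y i‖) : ‖x‖ ≤ C * ‖y‖ := by
  have hx := lp.norm_rpow_eq_tsum (p := 2) (by norm_num) x
  have hy := lp.norm_rpow_eq_tsum (p := 2) (by norm_num) y
  have hsx := (lp.memℓp x).summable (by norm_num)
  have hsy := (lp.memℓp y).summable (by norm_num)
  have e2 : (2 : ENNReal).toReal = 2 := by norm_num
  rw [e2] at hx hy hsx hsy
  have h1 : ‖x‖ ^ (2 : ℝ) ≤ (C * ‖y‖) ^ (2 : ℝ) := by
    rw [hx, Real.mul_rpow hC (norm_nonneg _), hy, ← tsum_mul_left]
    apply hsx.tsum_le_tsum _ (hsy.mul_left _)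
    intro i
    rw [← Real.mul_rpow hC (norm_nonneg _)]
    exact Real.rpow_le_rpow (norm_nonneg _) (h i) (by norm_num)
  exact (Real.rpow_le_rpow_iff (norm_nonneg _) (by positivity) (by norm_num)).mp h1

/-- the bounded diagonal operator with entries `c i` -/
noncomputable def diag (hc : ∀ i, ‖c i‖ ≤ 1) : H →L[ℂ] H :=
  (b.repr.symm.toContinuousLinearEquiv : lp (fun _ : ι => ℂ) 2 →L[ℂ] H) ∘L
    ((diagL c hc).mkContinuous 1 (fun x => norm_le_of_le zero_le_one (fun i => by
      rw [diagL_apply, norm_mul]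
      exact mul_le_mul_of_nonneg_right (hc i) (norm_nonneg _)))) ∘L
    (b.repr.toContinuousLinearEquiv : H →L[ℂ] lp (fun _ : ι => ℂ) 2)

lemma diag_repr (hc : ∀ i, ‖c i‖ ≤ 1) (x : H) (i : ι) :
    b.repr (diag b c hc x) i = c i * b.repr x i := by
  simp [diag, diagL_apply]

lemma norm_diag_apply_le (hc : ∀ i, ‖c i‖ ≤ 1) {C : ℝ} (hC : 0 ≤ C) (hcC : ∀ i, ‖c i‖ ≤ C)
    (x : H) : ‖diag b c hc x‖ ≤ C * ‖x‖ := by
  rw [← b.repr.norm_map (diag b c hc x), ← b.repr.norm_map x]
  apply norm_le_of_le hC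
  intro i
  rw [diag_repr, norm_mul]
  exact mul_le_mul_of_nonneg_right (hcC i) (norm_nonneg _)

/-- a diagonal operator whose entries tend to zero is compact -/
lemma isCompact_diag (hc : ∀ i, ‖c i‖ ≤ 1) (hlim : Tendsto c cofinite (𝓝 0)) :
    IsCompactOperator (diag b c hc) := by
  classical
  -- finite rank truncations
  let cS : Finset ι → ι → ℂ := fun S i => if i ∈ S then c i else 0
  have hcS : ∀ S i, ‖cS S i‖ ≤ 1 := by
    intro S i
    by_cases h : i ∈ S
    · simp [cS, h, hc i]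
    · simp [cS, h]
  have hfin : ∀ S, IsCompactOperator (diag b (cS S) (hcS S)) := by
    intro S
    have hrange : ∀ x, diag b (cS S) (hcS S) x ∈ Submodule.span ℂ (b '' (S : Set ι)) := by
      intro x
      have h1 : diag b (cS S) (hcS S) x = ∑ i ∈ S, (c i * b.repr x i) • b i := by
        have h2 := b.hasSum_repr (diag b (cS S) (hcS S) x)
        have h3 : HasSum (fun i => b.repr (diag b (cS S) (hcS S) x) i • b i)
            (∑ i ∈ S, b.repr (diag b (cS S) (hcS S) x) i • b i) := by
          apply hasSum_sum_of_ne_finset_zero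
          intro i hi
          rw [diag_repr]
          simp [cS, hi]
        rw [h2.unique h3]
        apply Finset.sum_congr rfl
        intro i hi
        rw [diag_repr]
        simp [cS, hi]
      rw [h1]
      apply Submodule.sum_mem
      intro i hi
      exact Submodule.smul_mem _ _ (Submodule.subset_span ⟨i, hi, rfl⟩)
    haveI : FiniteDimensional ℂ (Submodule.span ℂ (b '' (S : Set ι))) :=
      FiniteDimensional.span_of_finite ℂ (S.finite_toSet.image _)
    let g : H →L[ℂ] Submodule.span ℂ (b '' (S : Set ι)) :=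
      (diag b (cS S) (hcS S)).codRestrict _ hrange
    have hg : diag b (cS S) (hcS S) =
        (Submodule.span ℂ (b '' (S : Set ι))).subtypeL ∘L g := by
      ext x; rfl
    have hgc : IsCompactOperator g := by
      haveI : ProperSpace (Submodule.span ℂ (b '' (S : Set ι))) :=
        FiniteDimensional.proper ℂ _
      refine (isCompactOperator_iff_exists_mem_nhds_isCompact_closure_image g).mpr ?_
      refine ⟨Metric.ball 0 1, Metric.ball_mem_nhds _ one_pos, ?_⟩
      apply Metric.isCompact_of_isClosed_isBounded isClosed_closure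
      apply Bornology.IsBounded.closure
      exact g.lipschitz.isBounded_image Metric.isBounded_ball
    rw [hg]
    exact IsCompactOperator.clm_comp hgc (Submodule.span ℂ (b '' (S : Set ι))).subtypeL
  have hten : Tendsto (fun S => diag b (cS S) (hcS S)) atTop (𝓝 (diag b c hc)) := by
    rw [Metric.tendsto_atTop]
    intro ε hε
    have h1 : ∀ᶠ i in cofinite, ‖c i‖ < ε / 2 := by
      have := hlim.norm
      rw [norm_zero] at this
      exact this.eventually (gt_mem_nhds (by positivity))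
    rw [eventually_cofinite] at h1
    refine ⟨h1.toFinset, fun S hS => ?_⟩
    rw [dist_eq_norm]
    have h2 : ‖diag b (cS S) (hcS S) - diag b c hc‖ ≤ ε / 2 := by
      apply ContinuousLinearMap.opNorm_le_bound _ (by positivity)
      intro x
      rw [← b.repr.norm_map, ← b.repr.norm_map x]
      apply norm_le_of_le (by positivity)
      intro i
      rw [sub_apply, map_sub]
      show ‖b.repr (diag b (cS S) (hcS S) x) i - b.repr (diag b c hc x) i‖ ≤ _
      rw [diag_repr, diag_repr, ← sub_mul, norm_mul]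
      apply mul_le_mul_of_nonneg_right _ (norm_nonneg _)
      by_cases h : i ∈ S
      · simp [cS, h]; positivity
      · have h3 : i ∉ h1.toFinset := fun h' => h (hS h')
        have h4 : ‖c i‖ < ε / 2 := by
          by_contra hcon
          exact h3 (by simpa using hcon)
        simp [cS, h]
        exact h4.le
    linarith
  exact isCompactOperator_of_tendsto hten (Filter.Eventually.of_forall hfin)

/-- two vectors with the same coefficients are equal -/
lemma ext_coeff (x y : H) (hxy : ∀ i, ⟪b i, x⟫_ℂ = ⟪b i, y⟫_ℂ) : x = y := by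
  apply b.repr.injective
  ext i
  rw [HilbertBasis.repr_apply_apply, HilbertBasis.repr_apply_apply]
  exact hxy i

omit [CompleteSpace H] in
lemma graph_closure_coeff (T : H →ₗ.[ℂ] H) (d : ι → ℝ)
    (h2 : ∀ (f : T.domain) (i : ι), ⟪b i, T f⟫_ℂ = (d i : ℂ) * ⟪b i, (f : H)⟫_ℂ) :
    ∀ p ∈ T.graph.topologicalClosure, ∀ i, ⟪b i, p.2⟫_ℂ = (d i : ℂ) * ⟪b i, p.1⟫_ℂ := by
  intro p hp i
  have hcl : IsClosed {p : H × H | ⟪b i, p.2⟫_ℂ = (d i : ℂ) * ⟪b i, p.1⟫_ℂ} :=
    isClosed_eq (by fun_prop) (by fun_prop)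
  have hsub : (T.graph : Set (H × H)) ⊆ {p : H × H | ⟪b i, p.2⟫_ℂ = (d i : ℂ) * ⟪b i, p.1⟫_ℂ} := by
    intro q hq
    obtain ⟨f, hf1, hf2⟩ := (LinearPMap.mem_graph_iff T).mp hq
    show ⟪b i, q.2⟫_ℂ = (d i : ℂ) * ⟪b i, q.1⟫_ℂ
    rw [← hf1, ← hf2]
    exact h2 f i
  exact closure_minimal hsub hcl hp

/-- An operator that is (weakly) diagonal in an orthonormal basis is closable. -/
lemma isClosable_of_diag (T : H →ₗ.[ℂ] H) (d : ι → ℝ)
    (h2 : ∀ (f : T.domain) (i : ι), ⟪b i, T f⟫_ℂ = (d i : ℂ) * ⟪b i, (f : H)⟫_ℂ) :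
    T.IsClosable := by
  refine ⟨(T.graph.topologicalClosure).toLinearPMap, ?_⟩
  rw [Submodule.toLinearPMap_graph_eq]
  intro p hp hp1
  apply ext_coeff b
  intro i
  rw [graph_closure_coeff b T d h2 p hp i, hp1]
  simp

/-- A densely defined symmetric-like operator `T` that is diagonal in an orthonormal basis with
eigenvalues `d i ≥ 1` tending to infinity has a closure with compact resolvent. -/
lemma closure_hasCompactResolvent (T : H →ₗ.[ℂ] H) (d : ι → ℝ) (hd1 : ∀ i, 1 ≤ d i)
    (hdlim : Tendsto d cofinite atTop)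
    (h1 : ∀ i, ∃ h : b i ∈ T.domain, T ⟨b i, h⟩ = (d i : ℂ) • b i)
    (h2 : ∀ (f : T.domain) (i : ι), ⟪b i, T f⟫_ℂ = (d i : ℂ) * ⟪b i, (f : H)⟫_ℂ) :
    HasCompactResolvent T.closure := by
  -- the closure of the graph
  have hG2 := graph_closure_coeff b T d h2
  have hext := ext_coeff b
  have hclos : T.IsClosable := isClosable_of_diag b T d h2
  have hgraph : T.closure.graph = T.graph.topologicalClosure :=
    hclos.graph_closure_eq_closure_graph.symm
  have hdpos : ∀ i, (0 : ℝ) < d i := fun i => lt_of_lt_of_le one_pos (hd1 i)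
  have hdne : ∀ i, (d i : ℂ) ≠ 0 := fun i => by exact_mod_cast (hdpos i).ne'
  have hc : ∀ i, ‖-(d i : ℂ)⁻¹‖ ≤ 1 := by
    intro i
    rw [norm_neg, norm_inv, Complex.norm_real, Real.norm_eq_abs, abs_of_pos (hdpos i)]
    exact inv_le_one_of_one_le₀ (hd1 i)
  have hlim : Tendsto (fun i => -(d i : ℂ)⁻¹) cofinite (𝓝 0) := by
    have h3 : Tendsto (fun i => (d i)⁻¹) cofinite (𝓝 0) := tendsto_inv_atTop_zero.comp hdlim
    have h4 : Tendsto (fun i => -(((d i)⁻¹ : ℝ) : ℂ)) cofinite (𝓝 (-((0 : ℝ) : ℂ))) :=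
      ((Complex.continuous_ofReal.tendsto 0).comp h3).neg
    simpa using h4
  set R := diag b (fun i => -(d i : ℂ)⁻¹) hc with hR
  have hRi : ∀ (u : H) (i : ι), ⟪b i, R u⟫_ℂ = -(d i : ℂ)⁻¹ * ⟪b i, u⟫_ℂ := by
    intro u i
    rw [← HilbertBasis.repr_apply_apply, ← HilbertBasis.repr_apply_apply, hR, diag_repr]
  -- `(R u, -u)` lies in the closed graph
  have hmem : ∀ u : H, (R u, -u) ∈ T.closure.graph := by
    intro u
    rw [hgraph]
    have hs : HasSum (fun i => b.repr u i • b i) u := b.hasSum_repr u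
    have hs1 : HasSum (fun i => R (b.repr u i • b i)) (R u) := R.hasSum hs
    have hs2 : HasSum (fun i => -(b.repr u i • b i)) (-u) := hs.neg
    have hs3 := hs1.prodMk hs2
    have hmem1 : ∀ i, (R (b.repr u i • b i), -(b.repr u i • b i)) ∈ T.graph := by
      intro i
      have hRb : R (b i) = -(d i : ℂ)⁻¹ • b i := by
        apply hext
        intro j
        rw [hRi, inner_smul_right]
        by_cases hij : j = i
        · subst hij; rfl
        · have : ⟪b j, b i⟫_ℂ = 0 := b.orthonormal.2 hij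
          rw [this]; simp
      obtain ⟨h, hT⟩ := h1 i
      have hb : (b i, (d i : ℂ) • b i) ∈ T.graph :=
        (LinearPMap.mem_graph_iff T).mpr ⟨⟨b i, h⟩, rfl, hT⟩
      have := T.graph.smul_mem (-(b.repr u i) * (d i : ℂ)⁻¹) hb
      convert this using 1
      rw [map_smul, hRb]
      refine Prod.ext ?_ ?_
      · simp only [Prod.smul_mk]
        rw [smul_smul]
        congr 1
        ring
      · simp only [Prod.smul_mk]
        rw [smul_smul, mul_assoc, inv_mul_cancel₀ (hdne i), mul_one, neg_smul]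
    have hpart : ∀ S : Finset ι, ∑ i ∈ S, (R (b.repr u i • b i), -(b.repr u i • b i)) ∈
        (T.graph : Set (H × H)) := fun S => Submodule.sum_mem _ (fun i _ => hmem1 i)
    exact mem_closure_of_tendsto hs3 (Filter.Eventually.of_forall hpart)
  refine ⟨0, R, isCompact_diag b _ hc hlim, ?_, ?_⟩
  · intro u
    obtain ⟨f, hf1, hf2⟩ := (LinearPMap.mem_graph_iff _).mp (hmem u)
    have hmemd : R u ∈ T.closure.domain := by
      have h5 : (f : H) = R u := hf1
      rw [← h5]; exact f.2
    refine ⟨hmemd, ?_⟩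
    have h6 : f = ⟨R u, hmemd⟩ := Subtype.ext hf1
    rw [← h6]
    have h7 : T.closure f = -u := hf2
    rw [h7]
    simp
  · intro f
    apply hext
    intro i
    have hg : ((f : H), T.closure f) ∈ T.graph.topologicalClosure := by
      rw [← hgraph]
      exact LinearPMap.mem_graph _ f
    have h8 := hG2 _ hg i
    simp only at h8
    rw [hRi, zero_smul, zero_sub, inner_neg_right, h8]
    have := hdne i
    field_simp

end diag

/-- An operator with an infinite dimensional eigenspace has no compact resolvent. -/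
lemma not_hasCompactResolvent (T : H →ₗ.[ℂ] H) (e : ℕ → H) (he : Orthonormal ℂ e) (c : ℂ)
    (h : ∀ k, ∃ hk : e k ∈ T.domain, T ⟨e k, hk⟩ = c • e k) :
    ¬ HasCompactResolvent T.closure := by
  rintro ⟨lam, R, hR, -, h2⟩
  have hle : T ≤ T.closure := T.le_closure
  have key : ∀ k, (lam - c) • R (e k) = e k := by
    intro k
    obtain ⟨hk, hT⟩ := h k
    have h3 : e k ∈ T.closure.domain := hle.1 hk
    have h4 : T.closure ⟨e k, h3⟩ = c • e k := by
      rw [← hT]
      exact (hle.2 rfl).symm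
    have h5 := h2 ⟨e k, h3⟩
    rw [h4] at h5
    simp only at h5
    rw [← sub_smul, map_smul] at h5
    exact h5
  have hne : lam - c ≠ 0 := by
    intro h0
    have h6 := key 0
    rw [h0, zero_smul] at h6
    have h7 := he.1 0
    rw [← h6] at h7
    simp at h7
  -- the images of the `e k` are far apart
  have hdist : ∀ k j, k ≠ j → ‖(lam - c)‖⁻¹ ≤ ‖R (e k) - R (e j)‖ := by
    intro k j hkj
    have h8 : (lam - c) • (R (e k) - R (e j)) = e k - e j := by
      rw [smul_sub, key, key]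
    have h9 : 1 ≤ ‖e k - e j‖ := by
      have h10 : ‖e k - e j‖ ^ 2 = 2 := by
        rw [@norm_sub_sq ℂ]
        rw [he.1 k, he.1 j, he.2 hkj]
        norm_num
      nlinarith [norm_nonneg (e k - e j)]
    have h11 : ‖lam - c‖ * ‖R (e k) - R (e j)‖ = ‖e k - e j‖ := by
      rw [← norm_smul, h8]
    have hpos : 0 < ‖lam - c‖ := norm_pos_iff.mpr hne
    rw [inv_le_iff_one_le_mul₀ hpos]
    linarith [h11, h9, mul_comm ‖lam - c‖ ‖R (e k) - R (e j)‖]
  have hbdd : Bornology.IsBounded (Set.range e) := by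
    rw [isBounded_iff_forall_norm_le]
    exact ⟨1, by rintro _ ⟨k, rfl⟩; exact (he.1 k).le⟩
  have hcomp : IsCompact (closure (R '' (Set.range e))) :=
    hR.isCompact_closure_image_of_bounded hbdd
  obtain ⟨a, -, φ, hφ, hlim⟩ := hcomp.tendsto_subseq (x := fun k => R (e k))
    (fun k => subset_closure ⟨e k, ⟨k, rfl⟩, rfl⟩)
  have hcau := hlim.cauchySeq
  rw [Metric.cauchySeq_iff] at hcau
  have hpos : 0 < ‖lam - c‖⁻¹ := inv_pos.mpr (norm_pos_iff.mpr hne)
  obtain ⟨N, hN⟩ := hcau _ hpos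
  have h12 := hN N le_rfl (N + 1) (Nat.le_succ N)
  rw [dist_eq_norm] at h12
  have h13 := hdist (φ N) (φ (N + 1)) (fun h => absurd h (hφ (Nat.lt_succ_self N)).ne)
  simp only [Function.comp] at h12
  linarith

end Pool.Agent.Helper421.CompactRes
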