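import Mathlib
import Pool.Agent.Helper421.CompactRes

set_option autoImplicit false

open MeasureTheory Complex
open scoped ComplexConjugate InnerProductSpace

namespace Pool.Agent.Helper421.FockDefs

/-- The measure on `ℂⁿ` with density `e^{-|z|²}` with respect to Lebesgue measure. -/
noncomputable def gaussMeasure (n : ℕ) : Measure (Fin n → ℂ) :=
  (volume : Measure (Fin n → ℂ)).withDensity
    (fun z => ENNReal.ofReal (Real.exp (-∑ i, ‖z i‖ ^ 2)))

/-- `f` has an entire representative. -/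
def HasEntireRep (n : ℕ) (f : Lp ℂ 2 (gaussMeasure n)) : Prop :=
  ∃ F : (Fin n → ℂ) → ℂ, AnalyticOnNhd ℂ F Set.univ ∧ (f : (Fin n → ℂ) → ℂ) =ᵐ[gaussMeasure n] F

lemma hasEntireRep_zero (n : ℕ) : HasEntireRep n 0 :=
  ⟨fun _ => 0, analyticOnNhd_const, Lp.coeFn_zero ℂ 2 (gaussMeasure n)⟩

lemma hasEntireRep_add {n : ℕ} {f g : Lp ℂ 2 (gaussMeasure n)} (hf : HasEntireRep n f)
    (hg : HasEntireRep n g) : HasEntireRep n (f + g) := by
  obtain ⟨F, hF, hfF⟩ := hf
  obtain ⟨G, hG, hgG⟩ := hg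
  exact ⟨F + G, hF.add hG, (Lp.coeFn_add f g).trans (hfF.add hgG)⟩

lemma hasEntireRep_smul {n : ℕ} (c : ℂ) {f : Lp ℂ 2 (gaussMeasure n)} (hf : HasEntireRep n f) :
    HasEntireRep n (c • f) := by
  obtain ⟨F, hF, hfF⟩ := hf
  refine ⟨c • F, hF.const_smul, (Lp.coeFn_smul c f).trans ?_⟩
  exact hfF.const_smul c

/-- The classes in `L²(μ)` that have an entire representative. -/
noncomputable def entireClasses (n : ℕ) : Submodule ℂ (Lp ℂ 2 (gaussMeasure n)) where
  carrier := {f | HasEntireRep n f}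
  zero_mem' := hasEntireRep_zero n
  add_mem' := hasEntireRep_add
  smul_mem' c _ hf := hasEntireRep_smul c hf

/-- The Bargmann-Segal space `H²(μ)`, as a closed subspace of `L²(μ)`. -/
noncomputable def Fock (n : ℕ) : Submodule ℂ (Lp ℂ 2 (gaussMeasure n)) :=
  (entireClasses n).topologicalClosure

instance (n : ℕ) : CompleteSpace (Fock n) :=
  (Submodule.isClosed_topologicalClosure (entireClasses n)).completeSpace_coe

/-- `f` is in the domain of `T_φ`, that is, `φ f` is in `L²(μ)`. -/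
def InDomain (n : ℕ) (φ : (Fin n → ℂ) → ℂ) (f : Fock n) : Prop :=
  MemLp (fun z => φ z * (f : Lp ℂ 2 (gaussMeasure n)) z) 2 (gaussMeasure n)

lemma inDomain_zero (n : ℕ) (φ : (Fin n → ℂ) → ℂ) : InDomain n φ 0 := by
  show MemLp (fun z => φ z * ((0 : Fock n) : Lp ℂ 2 (gaussMeasure n)) z) 2 (gaussMeasure n)
  have h : (fun z => φ z * ((0 : Fock n) : Lp ℂ 2 (gaussMeasure n)) z) =ᵐ[gaussMeasure n]
      fun _ => (0 : ℂ) := by
    filter_upwards [Lp.coeFn_zero ℂ 2 (gaussMeasure n)] with z hz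
    rw [Submodule.coe_zero, hz]
    simp
  exact (memLp_congr_ae h).mpr MemLp.zero

lemma inDomain_add {n : ℕ} {φ : (Fin n → ℂ) → ℂ} {f g : Fock n} (hf : InDomain n φ f)
    (hg : InDomain n φ g) : InDomain n φ (f + g) := by
  refine (memLp_congr_ae ?_).mp (MemLp.add hf hg)
  filter_upwards [Lp.coeFn_add (f : Lp ℂ 2 (gaussMeasure n)) (g : Lp ℂ 2 (gaussMeasure n))]
    with z hz
  rw [Submodule.coe_add, hz]
  simp [mul_add]

lemma inDomain_smul {n : ℕ} {φ : (Fin n → ℂ) → ℂ} (c : ℂ) {f : Fock n} (hf : InDomain n φ f) :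
    InDomain n φ (c • f) := by
  refine (memLp_congr_ae ?_).mp (MemLp.const_smul hf c)
  filter_upwards [Lp.coeFn_smul c (f : Lp ℂ 2 (gaussMeasure n))] with z hz
  rw [Submodule.coe_smul, hz]
  simp only [Pi.smul_apply, smul_eq_mul]
  ring

/-- The domain of `T_φ`: those `f` in `H²(μ)` with `φ f` in `L²(μ)`. -/
noncomputable def toeplitzDomain (n : ℕ) (φ : (Fin n → ℂ) → ℂ) : Submodule ℂ (Fock n) where
  carrier := {f | InDomain n φ f}
  zero_mem' := inDomain_zero n φ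
  add_mem' := inDomain_add
  smul_mem' c _ hf := inDomain_smul c hf

lemma memLp_of_mem_toeplitzDomain {n : ℕ} {φ : (Fin n → ℂ) → ℂ} {f : Fock n}
    (hf : f ∈ toeplitzDomain n φ) :
    MemLp (fun z => φ z * (f : Lp ℂ 2 (gaussMeasure n)) z) 2 (gaussMeasure n) := hf

/-- The class of `φ f` in `L²(μ)`, for `f` in the domain of `T_φ`. -/
noncomputable def mulFun (n : ℕ) (φ : (Fin n → ℂ) → ℂ) (f : toeplitzDomain n φ) :
    Lp ℂ 2 (gaussMeasure n) :=
  (memLp_of_mem_toeplitzDomain f.2).toLp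
    (fun z => φ z * ((f : Fock n) : Lp ℂ 2 (gaussMeasure n)) z)

lemma mulFun_add {n : ℕ} {φ : (Fin n → ℂ) → ℂ} (f g : toeplitzDomain n φ) :
    mulFun n φ (f + g) = mulFun n φ f + mulFun n φ g := by
  refine Eq.trans ?_ (MemLp.toLp_add (memLp_of_mem_toeplitzDomain f.2)
    (memLp_of_mem_toeplitzDomain g.2))
  apply MemLp.toLp_congr
  filter_upwards [Lp.coeFn_add ((f : Fock n) : Lp ℂ 2 (gaussMeasure n))
    ((g : Fock n) : Lp ℂ 2 (gaussMeasure n))] with z hz
  rw [Submodule.coe_add, Submodule.coe_add, hz]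
  simp [mul_add]

lemma mulFun_smul {n : ℕ} {φ : (Fin n → ℂ) → ℂ} (c : ℂ) (f : toeplitzDomain n φ) :
    mulFun n φ (c • f) = c • mulFun n φ f := by
  refine Eq.trans ?_ (MemLp.toLp_const_smul c (memLp_of_mem_toeplitzDomain f.2))
  apply MemLp.toLp_congr
  filter_upwards [Lp.coeFn_smul c ((f : Fock n) : Lp ℂ 2 (gaussMeasure n))] with z hz
  rw [Submodule.coe_smul, Submodule.coe_smul, hz]
  simp only [Pi.smul_apply, smul_eq_mul]
  ring

/-- Multiplication by `φ`, from the domain of `T_φ` to `L²(μ)`. -/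
noncomputable def mulClass (n : ℕ) (φ : (Fin n → ℂ) → ℂ) :
    toeplitzDomain n φ →ₗ[ℂ] Lp ℂ 2 (gaussMeasure n) where
  toFun f := mulFun n φ f
  map_add' := mulFun_add
  map_smul' := mulFun_smul

/-- The Toeplitz operator `T_φ f = P (φ f)` on `H²(μ)`, where `P` is the orthogonal projection of
`L²(μ)` onto `H²(μ)`. -/
noncomputable def toeplitz (n : ℕ) (φ : (Fin n → ℂ) → ℂ) : Fock n →ₗ.[ℂ] Fock n where
  domain := toeplitzDomain n φ
  toFun := ((Fock n).orthogonalProjectionOnto : Lp ℂ 2 (gaussMeasure n) →ₗ[ℂ] Fock n) ∘ₗ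
    mulClass n φ

/-- The function on `ℂⁿ` given by a polynomial in `z` (the variables `Sum.inl i`) and `z̄`
(the variables `Sum.inr i`). -/
noncomputable def symbol {n : ℕ} (p : MvPolynomial (Fin n ⊕ Fin n) ℂ) (z : Fin n → ℂ) : ℂ :=
  MvPolynomial.eval (Sum.elim z (fun i => conj (z i))) p

end Pool.Agent.Helper421.FockDefs
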