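import Mathlib

set_option autoImplicit false

open MeasureTheory Complex Set Filter
open scoped Real Topology ComplexConjugate

namespace Pool.Agent.Helper421.Gauss1

/-- The weight `e^{-|z|²}` on the complex plane. -/
noncomputable def w1 (z : ℂ) : ENNReal := ENNReal.ofReal (Real.exp (-‖z‖ ^ 2))

/-- The Gaussian measure with density `e^{-|z|²}` on the complex plane. -/
noncomputable def mu1 : Measure ℂ := volume.withDensity w1

lemma measurable_w1 : Measurable w1 := by
  unfold w1
  fun_prop

lemma w1_lt_top (z : ℂ) : w1 z < ⊤ := ENNReal.ofReal_lt_top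

lemma integral_mu1 (f : ℂ → ℂ) :
    ∫ z, f z ∂mu1 = ∫ z, (Real.exp (-‖z‖ ^ 2) : ℝ) • f z := by
  unfold mu1
  rw [integral_withDensity_eq_integral_toReal_smul measurable_w1
    (Filter.Eventually.of_forall w1_lt_top)]
  congr 1
  ext z
  unfold w1
  rw [ENNReal.toReal_ofReal (Real.exp_pos _).le]

lemma integral_mu1_real (f : ℂ → ℝ) :
    ∫ z, f z ∂mu1 = ∫ z, Real.exp (-‖z‖ ^ 2) * f z := by
  unfold mu1
  rw [integral_withDensity_eq_integral_toReal_smul measurable_w1
    (Filter.Eventually.of_forall w1_lt_top)]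
  congr 1
  ext z
  unfold w1
  rw [ENNReal.toReal_ofReal (Real.exp_pos _).le, smul_eq_mul]

lemma integral_norm_pow (k : ℕ) :
    ∫ z : ℂ, ‖z‖ ^ (2 * k) ∂mu1 = π * (Nat.factorial k) := by
  rw [integral_mu1_real]
  have h := Complex.integral_rpow_mul_exp_neg_rpow (p := 2) (q := 2 * k) (by norm_num)
    (by have : (0 : ℝ) ≤ k := Nat.cast_nonneg k; linarith)
  have e1 : (2 * π / 2) * Real.Gamma ((2 * (k : ℝ) + 2) / 2) = π * (Nat.factorial k) := by
    have : (2 * (k : ℝ) + 2) / 2 = k + 1 := by ring
    rw [this, Real.Gamma_nat_eq_factorial]; ring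
  rw [← e1, ← h]
  congr 1
  ext z
  rw [mul_comm]
  congr 1
  · have : (2 * (k : ℝ)) = ((2 * k : ℕ) : ℝ) := by push_cast; ring
    rw [this, Real.rpow_natCast]
  · congr 1
    rw [Real.rpow_two]

lemma lintegral_norm_pow_lt_top (k : ℕ) : ∫⁻ z : ℂ, ‖z‖ₑ ^ (2 * k) ∂mu1 < ⊤ := by
  by_contra hcon
  have htop : ∫⁻ z : ℂ, ‖z‖ₑ ^ (2 * k) ∂mu1 = ⊤ := not_lt_top_iff.mp hcon
  have h := integral_norm_pow k
  rw [integral_eq_lintegral_of_nonneg_ae (Filter.Eventually.of_forall (fun z => by positivity))
    (by fun_prop)] at h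
  have e : ∫⁻ z : ℂ, ENNReal.ofReal (‖z‖ ^ (2 * k)) ∂mu1 = ⊤ := by
    rw [← htop]
    congr 1
    ext z
    rw [ENNReal.ofReal_pow (norm_nonneg _), ofReal_norm]
  rw [e] at h
  simp only [ENNReal.toReal_top] at h
  have : (0 : ℝ) < π * (Nat.factorial k) := by positivity
  linarith

instance : IsFiniteMeasure mu1 := by
  constructor
  have := lintegral_norm_pow_lt_top 0
  simpa using this

lemma memLp_pow (k : ℕ) : MemLp (fun z : ℂ => z ^ k) 2 mu1 := by
  refine ⟨by fun_prop, ?_⟩
  rw [eLpNorm_lt_top_iff_lintegral_rpow_enorm_lt_top (by norm_num) (by norm_num)]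
  have := lintegral_norm_pow_lt_top k
  convert this using 2
  ext z
  rw [enorm_pow]
  norm_num
  rw [← pow_mul, mul_comm]

/-- rotations preserve the Gaussian measure -/
lemma rot_mp (a : Circle) : MeasurePreserving (fun z : ℂ => (a : ℂ) * z) mu1 mu1 := by
  have hvol : MeasurePreserving (rotation a) (volume : Measure ℂ) volume :=
    (rotation a).measurePreserving
  have hfun : (fun z : ℂ => (a : ℂ) * z) = rotation a := by
    ext z; simp [rotation_apply]
  rw [hfun]
  refine ⟨hvol.measurable, ?_⟩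
  ext s hs
  rw [Measure.map_apply hvol.measurable hs]
  unfold mu1
  rw [withDensity_apply _ hs, withDensity_apply _ (hvol.measurable hs)]
  rw [← hvol.setLIntegral_comp_preimage hs measurable_w1]
  congr 1
  ext z
  unfold w1
  simp only [rotation_apply, norm_mul]
  rw [show ‖(a : ℂ)‖ = 1 from Circle.norm_coe a, one_mul]

lemma integral_rot (a : Circle) (f : ℂ → ℂ) :
    ∫ z, f ((a : ℂ) * z) ∂mu1 = ∫ z, f z ∂mu1 := by
  have hme : MeasurableEmbedding (fun z : ℂ => (a : ℂ) * z) := by
    have hfun : (fun z : ℂ => (a : ℂ) * z) = rotation a := by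
      ext z; simp [rotation_apply]
    rw [hfun]
    exact (rotation a).toHomeomorph.measurableEmbedding
  exact (rot_mp a).integral_comp hme f

lemma int_exp (j k : ℕ) :
    ∫ θ in (0 : ℝ)..(2 * π), exp (-(k * θ * I)) * exp (θ * I) ^ j =
      if j = k then (2 * π : ℂ) else 0 := by
  have e : ∀ θ : ℝ, exp (-(k * θ * I)) * exp (θ * I) ^ j = exp ((((j : ℤ) - k : ℤ) * I) * θ) := by
    intro θ
    rw [← Complex.exp_nat_mul, ← Complex.exp_add]
    congr 1
    push_cast
    ring
  simp_rw [e]
  split_ifs with h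
  · subst h
    simp
  · have hne : (((j : ℤ) - k : ℤ) : ℂ) * I ≠ 0 := by
      refine mul_ne_zero ?_ I_ne_zero
      have h0 : ((j : ℤ) - k : ℤ) ≠ 0 := by omega
      exact Int.cast_ne_zero.mpr h0
    rw [integral_exp_mul_complex hne]
    have h1 : exp ((((j : ℤ) - k : ℤ) : ℂ) * I * ((2 * π : ℝ) : ℂ)) = 1 := by
      rw [Complex.exp_eq_one_iff]
      exact ⟨(j : ℤ) - k, by push_cast; ring⟩
    rw [h1]
    simp

/-- Fourier coefficient on circles = Taylor coefficient. -/
lemma circle_avg (g : ℂ → ℂ) (hg : Differentiable ℂ g) (k : ℕ) (z : ℂ) :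
    ∫ θ in (0 : ℝ)..(2 * π), exp (-(k * θ * I)) * g (exp (θ * I) * z) =
      2 * π * (((Nat.factorial k : ℕ) : ℂ)⁻¹ * iteratedDeriv k g 0 * z ^ k) := by
  obtain ⟨c, hc⟩ : ∃ c : ℕ → ℂ,
    c = fun n => ((Nat.factorial n : ℕ) : ℂ)⁻¹ * iteratedDeriv n g 0 := ⟨_, rfl⟩
  have hT : ∀ u : ℂ, HasSum (fun n => c n * u ^ n) (g u) := by
    intro u
    have h := Complex.hasSum_taylorSeries_of_entire hg 0 u
    have e : (fun n => c n * u ^ n) =
        fun n : ℕ => ((Nat.factorial n : ℕ) : ℂ)⁻¹ • (u - 0) ^ n • iteratedDeriv n g 0 := by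
      ext n
      simp only [smul_eq_mul, sub_zero, hc]
      ring
    rw [e]
    exact h
  have hck : ((Nat.factorial k : ℕ) : ℂ)⁻¹ * iteratedDeriv k g 0 = c k := by rw [hc]
  rw [hck]
  have hsum : Summable (fun n => ‖c n * z ^ n‖) := (hT z).summable.norm
  have key := intervalIntegral.hasSum_integral_of_dominated_convergence
    (μ := volume) (a := (0 : ℝ)) (b := 2 * π)
    (F := fun n (θ : ℝ) => exp (-(k * θ * I)) * (c n * (exp (θ * I) * z) ^ n))
    (f := fun θ : ℝ => exp (-(k * θ * I)) * g (exp (θ * I) * z))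
    (bound := fun n _ => ‖c n * z ^ n‖)
    (fun n => by fun_prop)
    (fun n => Filter.Eventually.of_forall (fun θ _ => by
      rw [norm_mul, norm_mul, norm_mul, norm_pow, norm_mul, norm_pow]
      have h1 : ‖exp (-(k * θ * I))‖ = 1 := by
        rw [Complex.norm_exp]; simp
      have h2 : ‖exp (θ * I)‖ = 1 := Complex.norm_exp_ofReal_mul_I θ
      rw [h1, h2, one_mul, one_mul]))
    (Filter.Eventually.of_forall (fun θ _ => hsum))
    (by simp)
    (Filter.Eventually.of_forall (fun θ _ => (hT _).mul_left _))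
  have e2 : ∀ n, ∫ θ in (0 : ℝ)..(2 * π), exp (-(k * θ * I)) * (c n * (exp (θ * I) * z) ^ n) =
      if n = k then 2 * π * (c k * z ^ k) else 0 := by
    intro n
    have e3 : ∀ θ : ℝ, exp (-(k * θ * I)) * (c n * (exp (θ * I) * z) ^ n) =
        (c n * z ^ n) * (exp (-(k * θ * I)) * exp (θ * I) ^ n) := by
      intro θ; rw [mul_pow]; ring
    simp_rw [e3]
    rw [intervalIntegral.integral_const_mul, int_exp]
    split_ifs with h
    · subst h; ring
    · simp
  simp_rw [e2] at key
  have key2 := hasSum_ite_eq k (2 * π * (c k * z ^ k))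
  exact key.unique key2

/-- Gaussian moments of entire functions give Taylor coefficients. -/
lemma moment (g : ℂ → ℂ) (hg : Differentiable ℂ g) (k : ℕ)
    (hint : Integrable (fun z => conj z ^ k * g z) mu1) :
    ∫ z, conj z ^ k * g z ∂mu1 = π * iteratedDeriv k g 0 := by
  have hcont : Continuous g := hg.continuous
  -- invariance
  have h1 : ∀ θ : ℝ, ∫ z, conj z ^ k * g z ∂mu1 =
      ∫ z, conj z ^ k * (exp (-(k * θ * I)) * g (exp (θ * I) * z)) ∂mu1 := by
    intro θ
    rw [← integral_rot (Circle.exp θ) (fun z => conj z ^ k * g z)]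
    congr 1
    ext z
    rw [Circle.coe_exp, map_mul, mul_pow]
    have : conj (exp (θ * I)) ^ k = exp (-(k * θ * I)) := by
      rw [← Complex.exp_conj, ← Complex.exp_nat_mul]
      congr 1
      simp
      ring
    rw [this]; ring
  -- integrability of the joint function
  have hjoint : Integrable (Function.uncurry fun (θ : ℝ) (z : ℂ) =>
      conj z ^ k * (exp (-(k * θ * I)) * g (exp (θ * I) * z)))
      ((volume.restrict (Ioc 0 (2 * π))).prod mu1) := by
    rw [integrable_prod_iff]
    · constructor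
      · refine Filter.Eventually.of_forall (fun θ => ?_)
        have h2 := (rot_mp (Circle.exp θ)).integrable_comp_of_integrable hint
        have h3 : Integrable (fun z => exp (-(k * θ * I)) * (exp (k * θ * I)) *
          (conj z ^ k * (exp (-(k * θ * I)) * g (exp (θ * I) * z)))) mu1 := by
          convert h2 using 1
          ext z
          simp only [Function.comp]
          rw [Circle.coe_exp, map_mul, mul_pow]
          have : conj (exp (θ * I)) ^ k = exp (-(k * θ * I)) := by
            rw [← Complex.exp_conj, ← Complex.exp_nat_mul]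
            congr 1
            simp
            ring
          rw [this, ← Complex.exp_add]
          simp
          ring
        have h4 : exp (-(k * θ * I)) * (exp (k * θ * I)) = 1 := by
          rw [← Complex.exp_add]; simp
        rw [h4] at h3
        simpa [Function.uncurry] using h3
      · have : ∀ θ : ℝ, ∫ z, ‖Function.uncurry (fun (θ : ℝ) (z : ℂ) =>
            conj z ^ k * (exp (-(k * θ * I)) * g (exp (θ * I) * z))) (θ, z)‖ ∂mu1 =
            ∫ z, ‖conj z ^ k * g z‖ ∂mu1 := by
          intro θ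
          have h5 := (rot_mp (Circle.exp θ)).integral_comp
            (by
              have hfun : (fun z : ℂ => (Circle.exp θ : ℂ) * z) = rotation (Circle.exp θ) := by
                ext z; simp [rotation_apply]
              rw [hfun]
              exact (rotation (Circle.exp θ)).toHomeomorph.measurableEmbedding)
            (fun z => ‖conj z ^ k * g z‖)
          rw [← h5]
          congr 1
          ext z
          simp only [Function.uncurry, Circle.coe_exp, map_mul, norm_mul, norm_pow]
          have h6 : ‖exp (-(k * θ * I))‖ = 1 := by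
            rw [Complex.norm_exp]; simp
          have h7 : ‖conj (exp (θ * I))‖ = 1 := by
            rw [RCLike.norm_conj]; exact Complex.norm_exp_ofReal_mul_I θ
          rw [h6, h7]
          ring
        simp_rw [this]
        exact integrable_const _
    · apply Continuous.aestronglyMeasurable
      simp only [Function.uncurry_def]
      fun_prop
  have h8 : (2 * π : ℂ) * ∫ z, conj z ^ k * g z ∂mu1 =
      ∫ θ in (0 : ℝ)..(2 * π), ∫ z, conj z ^ k * (exp (-(k * θ * I)) * g (exp (θ * I) * z)) ∂mu1 := by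
    simp_rw [← h1]
    rw [intervalIntegral.integral_const, sub_zero]
    simp
  rw [intervalIntegral.integral_of_le (by positivity), integral_integral_swap hjoint] at h8
  have h9 : ∀ z : ℂ, ∫ θ in Ioc 0 (2 * π), conj z ^ k *
      (exp (-(k * θ * I)) * g (exp (θ * I) * z)) =
      (2 * π * (((Nat.factorial k : ℕ) : ℂ)⁻¹ * iteratedDeriv k g 0)) * ((‖z‖ ^ (2 * k) : ℝ) : ℂ) := by
    intro z
    rw [← intervalIntegral.integral_of_le (by positivity), intervalIntegral.integral_const_mul,
      circle_avg g hg k z]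
    have : conj z ^ k * z ^ k = ((‖z‖ ^ (2 * k) : ℝ) : ℂ) := by
      rw [← mul_pow, Complex.conj_mul']
      push_cast
      rw [← pow_mul]
    rw [← this]; ring
  simp_rw [h9] at h8
  have h10 : ∫ z : ℂ, ((‖z‖ ^ (2 * k) : ℝ) : ℂ) ∂mu1 = ((π * (Nat.factorial k) : ℝ) : ℂ) := by
    rw [integral_complex_ofReal, integral_norm_pow]
  rw [integral_const_mul, h10] at h8
  have hpi : (2 * π : ℂ) ≠ 0 := by
    exact_mod_cast (by positivity : (2 * π : ℝ) ≠ 0)
  apply mul_left_cancel₀ hpi
  rw [h8]
  have hk : ((Nat.factorial k : ℕ) : ℂ) ≠ 0 := by exact_mod_cast Nat.factorial_ne_zero k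
  push_cast
  field_simp

end Pool.Agent.Helper421.Gauss1
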