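import Mathlib
import Pool.Agent.Helper421.Gauss1
import Pool.Agent.Helper421.FockDefs

set_option autoImplicit false

open MeasureTheory Complex Set Filter
open scoped Real Topology ComplexConjugate InnerProductSpace

namespace Pool.Agent.Helper421.Gauss2

open Pool.Agent.Helper421.Gauss1 Pool.Agent.Helper421.FockDefs

lemma prod_eq : mu1.prod mu1 =
    (volume : Measure (ℂ × ℂ)).withDensity (fun p => w1 p.1 * w1 p.2) := by
  unfold mu1
  rw [prod_withDensity measurable_w1 measurable_w1]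
  rfl

lemma mp2 : MeasurePreserving (MeasurableEquiv.finTwoArrow (α := ℂ)) (gaussMeasure 2)
    (mu1.prod mu1) := by
  have hvol := volume_preserving_finTwoArrow ℂ
  refine ⟨hvol.measurable, ?_⟩
  rw [prod_eq]
  ext s hs
  rw [Measure.map_apply hvol.measurable hs]
  unfold gaussMeasure
  rw [withDensity_apply _ hs, withDensity_apply _ (hvol.measurable hs)]
  have hm : Measurable (fun p : ℂ × ℂ => w1 p.1 * w1 p.2) :=
    (measurable_w1.comp measurable_fst).mul (measurable_w1.comp measurable_snd)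
  rw [← hvol.setLIntegral_comp_preimage hs hm]
  congr 1
  ext z
  unfold w1
  rw [← ENNReal.ofReal_mul (Real.exp_pos _).le, ← Real.exp_add]
  congr 2
  simp [MeasurableEquiv.finTwoArrow, MeasurableEquiv.piFinTwo]
  ring

instance : IsFiniteMeasure (gaussMeasure 2) := by
  constructor
  have h := mp2.measure_preimage (s := univ) MeasurableSet.univ.nullMeasurableSet
  rw [preimage_univ] at h
  rw [h]
  exact measure_lt_top _ _

lemma integral_two (f : ℂ × ℂ → ℂ) :
    ∫ z, f (z 0, z 1) ∂(gaussMeasure 2) = ∫ p, f p ∂(mu1.prod mu1) := by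
  have h := mp2.integral_comp (MeasurableEquiv.finTwoArrow (α := ℂ)).measurableEmbedding f
  rw [← h]
  rfl

lemma integrable_two (f : ℂ × ℂ → ℂ) :
    Integrable (fun z : Fin 2 → ℂ => f (z 0, z 1)) (gaussMeasure 2) ↔
      Integrable f (mu1.prod mu1) := by
  have h := mp2.integrable_comp_emb (MeasurableEquiv.finTwoArrow (α := ℂ)).measurableEmbedding
    (g := f)
  rw [← h]
  rfl

lemma integral_two_mul (f g : ℂ → ℂ) :
    ∫ z, f (z 0) * g (z 1) ∂(gaussMeasure 2) = (∫ a, f a ∂mu1) * ∫ b, g b ∂mu1 := by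
  rw [integral_two (fun p => f p.1 * g p.2)]
  exact integral_prod_mul f g

lemma memLp_conj_pow (k : ℕ) : MemLp (fun z : ℂ => conj z ^ k) 2 mu1 := by
  have h := (memLp_pow k).star
  refine (memLp_congr_ae (Filter.Eventually.of_forall fun z => ?_)).mp h
  simp

lemma integrable_conj_pow_mul_pow (j k : ℕ) :
    Integrable (fun z : ℂ => conj z ^ j * z ^ k) mu1 :=
  (memLp_conj_pow j).integrable_mul (memLp_pow k)

lemma integral_conj_pow_mul_pow (j k : ℕ) :
    ∫ z : ℂ, conj z ^ j * z ^ k ∂mu1 = if j = k then (π : ℂ) * (Nat.factorial k) else 0 := by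
  rw [moment (fun z => z ^ k) (by fun_prop) j (integrable_conj_pow_mul_pow j k),
    iteratedDeriv_fun_pow_zero]
  split_ifs with h
  · subst h; simp
  · simp

lemma integral_norm_pow_mul (j k a : ℕ) :
    ∫ z : ℂ, conj z ^ j * (((‖z‖ ^ (2 * a) : ℝ) : ℂ) * z ^ k) ∂mu1 =
      if j = k then (π : ℂ) * (Nat.factorial (k + a)) else 0 := by
  have h := integral_conj_pow_mul_pow (j + a) (k + a)
  rw [show (if j = k then (π : ℂ) * (Nat.factorial (k + a)) else 0) =
    (if j + a = k + a then (π : ℂ) * (Nat.factorial (k + a)) else 0) by simp, ← h]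
  congr 1
  ext z
  have : ((‖z‖ ^ (2 * a) : ℝ) : ℂ) = conj z ^ a * z ^ a := by
    rw [← mul_pow, Complex.conj_mul']
    push_cast
    rw [← pow_mul]
  rw [this]
  ring


/-- monomials on `ℂ²` -/
noncomputable def mon (p : ℕ × ℕ) (z : Fin 2 → ℂ) : ℂ := z 0 ^ p.1 * z 1 ^ p.2

/-- the weight `|z₀|^{2 a₀} |z₁|^{2 a₁}` -/
noncomputable def wt (a : ℕ × ℕ) (z : Fin 2 → ℂ) : ℂ :=
  ((‖z 0‖ ^ (2 * a.1) : ℝ) : ℂ) * ((‖z 1‖ ^ (2 * a.2) : ℝ) : ℂ)

lemma integral_mon (q p a : ℕ × ℕ) :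
    ∫ z, conj (mon q z) * (wt a z * mon p z) ∂(gaussMeasure 2) =
      if q = p then (π : ℂ) ^ 2 * ((Nat.factorial (p.1 + a.1) : ℕ) * (Nat.factorial (p.2 + a.2) : ℕ))
      else 0 := by
  have h : ∀ z : Fin 2 → ℂ, conj (mon q z) * (wt a z * mon p z) =
      (conj (z 0) ^ q.1 * (((‖z 0‖ ^ (2 * a.1) : ℝ) : ℂ) * z 0 ^ p.1)) *
      (conj (z 1) ^ q.2 * (((‖z 1‖ ^ (2 * a.2) : ℝ) : ℂ) * z 1 ^ p.2)) := by
    intro z
    unfold mon wt
    rw [map_mul, map_pow, map_pow]
    ring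
  simp_rw [h]
  rw [integral_two_mul (fun z => conj z ^ q.1 * (((‖z‖ ^ (2 * a.1) : ℝ) : ℂ) * z ^ p.1))
    (fun z => conj z ^ q.2 * (((‖z‖ ^ (2 * a.2) : ℝ) : ℂ) * z ^ p.2)),
    integral_norm_pow_mul, integral_norm_pow_mul]
  obtain ⟨q1, q2⟩ := q
  obtain ⟨p1, p2⟩ := p
  simp only [Prod.mk.injEq]
  by_cases h1 : q1 = p1
  · by_cases h2 : q2 = p2
    · simp [h1, h2]; ring
    · simp [h1, h2]
  · simp [h1]

lemma integrable_norm_pow (m : ℕ) : Integrable (fun z : ℂ => ((‖z‖ ^ (2 * m) : ℝ) : ℂ)) mu1 := by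
  have h := integrable_conj_pow_mul_pow m m
  refine h.congr (Filter.Eventually.of_forall fun z => ?_)
  show conj z ^ m * z ^ m = _
  rw [← mul_pow, Complex.conj_mul']
  push_cast
  rw [← pow_mul]

lemma memLp_wt_mon (a p : ℕ × ℕ) :
    MemLp (fun z => wt a z * mon p z) 2 (gaussMeasure 2) := by
  have hmeas : AEStronglyMeasurable (fun z => wt a z * mon p z) (gaussMeasure 2) := by
    apply Continuous.aestronglyMeasurable
    unfold wt mon
    fun_prop
  rw [memLp_two_iff_integrable_sq_norm hmeas]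
  have h1 := (integrable_norm_pow (2 * a.1 + p.1)).mul_prod (integrable_norm_pow (2 * a.2 + p.2))
  have h2 := (integrable_two _).mpr h1
  have h3 := h2.norm
  refine h3.congr (Filter.Eventually.of_forall fun z => ?_)
  show ‖_‖ = ‖wt a z * mon p z‖ ^ 2
  unfold wt mon
  simp only [norm_mul, norm_pow, Complex.norm_real, norm_norm]
  ring

lemma memLp_mon (p : ℕ × ℕ) : MemLp (mon p) 2 (gaussMeasure 2) := by
  refine (memLp_congr_ae (Filter.Eventually.of_forall fun z => ?_)).mp (memLp_wt_mon (0, 0) p)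
  simp [wt]

end Pool.Agent.Helper421.Gauss2
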