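import Mathlib
import Pool.Agent.Helper421.Gauss2

set_option autoImplicit false

open MeasureTheory Complex Set Filter
open scoped Real Topology ComplexConjugate InnerProductSpace

namespace Pool.Agent.Helper421.Taylor2

open Pool.Agent.Helper421.Gauss1 Pool.Agent.Helper421.FockDefs Pool.Agent.Helper421.Gauss2

/-- Taylor coefficients in the second variable. -/
noncomputable def G (F : (Fin 2 → ℂ) → ℂ) (l : ℕ) (a : ℂ) : ℂ :=
  iteratedDeriv l (fun b => F ![a, b]) 0

lemma hasDerivAt_snd (F : (Fin 2 → ℂ) → ℂ) (hF : AnalyticOnNhd ℂ F univ) (a b : ℂ) :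
    HasDerivAt (fun b => F ![a, b]) (fderiv ℂ F ![a, b] (Pi.single 1 1)) b := by
  have h1 : HasFDerivAt F (fderiv ℂ F ![a, b]) ![a, b] :=
    (hF _ (mem_univ _)).differentiableAt.hasFDerivAt
  have h2 : HasDerivAt (fun b : ℂ => (![a, b] : Fin 2 → ℂ)) (Pi.single 1 1) b := by
    rw [hasDerivAt_pi]
    intro i
    fin_cases i
    · simpa using hasDerivAt_const b a
    · simpa using hasDerivAt_id' b
  exact h1.comp_hasDerivAt b h2

lemma differentiable_snd (F : (Fin 2 → ℂ) → ℂ) (hF : AnalyticOnNhd ℂ F univ) (a : ℂ) :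
    Differentiable ℂ (fun b => F ![a, b]) :=
  fun b => (hasDerivAt_snd F hF a b).differentiableAt

lemma differentiable_fst (F : (Fin 2 → ℂ) → ℂ) (hF : AnalyticOnNhd ℂ F univ) (b : ℂ) :
    Differentiable ℂ (fun a => F ![a, b]) := by
  have h1 : Differentiable ℂ F := fun z => (hF z (mem_univ _)).differentiableAt
  apply h1.comp
  rw [differentiable_pi]
  intro i
  fin_cases i
  · simp
  · simp

lemma differentiable_G (l : ℕ) : ∀ (F : (Fin 2 → ℂ) → ℂ), AnalyticOnNhd ℂ F univ →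
    Differentiable ℂ (G F l) := by
  induction l with
  | zero =>
    intro F hF
    have : G F 0 = fun a => F ![a, 0] := by
      ext a
      simp [G]
    rw [this]
    exact differentiable_fst F hF 0
  | succ l ih =>
    intro F hF
    have hD : AnalyticOnNhd ℂ (fun z => fderiv ℂ F z (Pi.single 1 1)) univ := by
      intro z hz
      have h1 := hF.fderiv z hz
      exact (ContinuousLinearMap.apply ℂ ℂ (Pi.single 1 1 : Fin 2 → ℂ)).analyticAt _ |>.comp h1
    have : G F (l + 1) = G (fun z => fderiv ℂ F z (Pi.single 1 1)) l := by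
      ext a
      unfold G
      rw [iteratedDeriv_succ']
      congr 1
      ext b
      exact (hasDerivAt_snd F hF a b).deriv
    rw [this]
    exact ih _ hD

/-- the Taylor coefficient (derivative at `0`) of index `(k, l)` -/
noncomputable def D (F : (Fin 2 → ℂ) → ℂ) (p : ℕ × ℕ) : ℂ := iteratedDeriv p.1 (G F p.2) 0

/-- iterated Taylor expansion -/
lemma taylor_iter (F : (Fin 2 → ℂ) → ℂ) (hF : AnalyticOnNhd ℂ F univ) (a b : ℂ) :
    (∀ l, HasSum (fun k : ℕ => ((Nat.factorial k : ℕ) : ℂ)⁻¹ * D F (k, l) * a ^ k) (G F l a)) ∧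
    HasSum (fun l : ℕ => ((Nat.factorial l : ℕ) : ℂ)⁻¹ * G F l a * b ^ l) (F ![a, b]) := by
  constructor
  · intro l
    have h := Complex.hasSum_taylorSeries_of_entire (differentiable_G l F hF) 0 a
    have e : (fun k : ℕ => ((Nat.factorial k : ℕ) : ℂ)⁻¹ * D F (k, l) * a ^ k) =
        fun n : ℕ => ((Nat.factorial n : ℕ) : ℂ)⁻¹ • (a - 0) ^ n •
          iteratedDeriv n (G F l) 0 := by
      ext k
      simp only [smul_eq_mul, sub_zero, D]
      ring
    rw [e]
    exact h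
  · have h := Complex.hasSum_taylorSeries_of_entire (differentiable_snd F hF a) 0 b
    have e : (fun l : ℕ => ((Nat.factorial l : ℕ) : ℂ)⁻¹ * G F l a * b ^ l) =
        fun n : ℕ => ((Nat.factorial n : ℕ) : ℂ)⁻¹ • (b - 0) ^ n •
          iteratedDeriv n (fun b => F ![a, b]) 0 := by
      ext l
      simp only [smul_eq_mul, sub_zero, G]
      ring
    rw [e]
    exact h

/-- the Taylor expansion as an absolutely convergent double series -/
lemma taylor_sum (F : (Fin 2 → ℂ) → ℂ) (hF : AnalyticOnNhd ℂ F univ) (z : Fin 2 → ℂ)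
    (hs : Summable (fun p : ℕ × ℕ => (((Nat.factorial p.1 : ℕ) : ℂ)⁻¹ *
      ((Nat.factorial p.2 : ℕ) : ℂ)⁻¹ * D F p) * mon p z)) :
    HasSum (fun p : ℕ × ℕ => (((Nat.factorial p.1 : ℕ) : ℂ)⁻¹ *
      ((Nat.factorial p.2 : ℕ) : ℂ)⁻¹ * D F p) * mon p z) (F z) := by
  have hz : z = ![z 0, z 1] := by
    ext i; fin_cases i <;> rfl
  obtain ⟨h1, h2⟩ := taylor_iter F hF (z 0) (z 1)
  rw [← hz] at h2
  have hs' := (Equiv.prodComm ℕ ℕ).summable_iff.mpr hs
  have h3 : HasSum ((fun p : ℕ × ℕ => (((Nat.factorial p.1 : ℕ) : ℂ)⁻¹ *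
      ((Nat.factorial p.2 : ℕ) : ℂ)⁻¹ * D F p) * mon p z) ∘ (Equiv.prodComm ℕ ℕ)) (F z) := by
    have h4 := hs'.hasSum
    have h5 : ∀ l : ℕ, HasSum (fun k : ℕ => ((fun p : ℕ × ℕ => (((Nat.factorial p.1 : ℕ) : ℂ)⁻¹ *
      ((Nat.factorial p.2 : ℕ) : ℂ)⁻¹ * D F p) * mon p z) ∘ (Equiv.prodComm ℕ ℕ)) (l, k))
        (((Nat.factorial l : ℕ) : ℂ)⁻¹ * G F l (z 0) * (z 1) ^ l) := by
      intro l
      have h6 := (h1 l).mul_left (((Nat.factorial l : ℕ) : ℂ)⁻¹ * (z 1) ^ l)
      have e1 : (fun k : ℕ => ((fun p : ℕ × ℕ => (((Nat.factorial p.1 : ℕ) : ℂ)⁻¹ *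
          ((Nat.factorial p.2 : ℕ) : ℂ)⁻¹ * D F p) * mon p z) ∘ (Equiv.prodComm ℕ ℕ)) (l, k)) =
          fun k : ℕ => ((Nat.factorial l : ℕ) : ℂ)⁻¹ * (z 1) ^ l *
            (((Nat.factorial k : ℕ) : ℂ)⁻¹ * D F (k, l) * (z 0) ^ k) := by
        ext k
        simp only [Function.comp, Equiv.prodComm_apply, Prod.swap, mon]
        ring
      have e2 : ((Nat.factorial l : ℕ) : ℂ)⁻¹ * G F l (z 0) * (z 1) ^ l =
          ((Nat.factorial l : ℕ) : ℂ)⁻¹ * (z 1) ^ l * G F l (z 0) := by ring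
      rw [e1, e2]
      exact h6
    have h7 := h4.prod_fiberwise h5
    rwa [h7.unique h2] at h4
  exact (Equiv.prodComm ℕ ℕ).hasSum_iff.mp h3

lemma memLp_conj_mon (p : ℕ × ℕ) : MemLp (fun z => conj (mon p z)) 2 (gaussMeasure 2) := by
  have h := (memLp_mon p).star
  refine (memLp_congr_ae (Filter.Eventually.of_forall fun z => ?_)).mp h
  simp

/-- inner products with monomials are Taylor coefficients -/
lemma coeff (F : (Fin 2 → ℂ) → ℂ) (hF : AnalyticOnNhd ℂ F univ)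
    (hL : MemLp F 2 (gaussMeasure 2)) (p : ℕ × ℕ) :
    ∫ z, conj (mon p z) * F z ∂(gaussMeasure 2) = (π : ℂ) ^ 2 * D F p := by
  obtain ⟨k, l⟩ := p
  have hint : Integrable (fun z => conj (mon (k, l) z) * F z) (gaussMeasure 2) :=
    (memLp_conj_mon (k, l)).integrable_mul hL
  obtain ⟨f, hf⟩ : ∃ f : ℂ × ℂ → ℂ, f = fun q => conj q.1 ^ k * (conj q.2 ^ l * F ![q.1, q.2]) :=
    ⟨_, rfl⟩
  have e1 : (fun z : Fin 2 → ℂ => conj (mon (k, l) z) * F z) = fun z => f (z 0, z 1) := by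
    ext z
    have hz : ![z 0, z 1] = z := by
      ext i; fin_cases i <;> rfl
    rw [hf]
    simp only [hz, mon, map_mul, map_pow]
    ring
  rw [e1] at hint ⊢
  rw [integrable_two] at hint
  rw [integral_two, integral_prod f hint]
  have e2 : ∀ᵐ a ∂mu1, ∫ b, f (a, b) ∂mu1 = conj a ^ k * ((π : ℂ) * G F l a) := by
    filter_upwards [hint.prod_right_ae] with a ha
    rw [hf] at ha ⊢
    simp only at ha ⊢
    rw [integral_const_mul]
    by_cases h0 : conj a ^ k = 0
    · rw [h0]; simp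
    · congr 1
      have h1 : Integrable (fun b => conj b ^ l * F ![a, b]) mu1 :=
        (integrable_const_mul_iff (IsUnit.mk0 _ h0) _).mp ha
      exact moment _ (differentiable_snd F hF a) l h1
  rw [integral_congr_ae e2]
  have h2 : Integrable (fun a => conj a ^ k * ((π : ℂ) * G F l a)) mu1 :=
    hint.integral_prod_left.congr e2
  have e3 : ∀ a : ℂ, conj a ^ k * ((π : ℂ) * G F l a) = (π : ℂ) * (conj a ^ k * G F l a) := by
    intro a; ring
  simp_rw [e3] at h2 ⊢
  have hpi : (π : ℂ) ≠ 0 := by exact_mod_cast Real.pi_ne_zero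
  have h3 : Integrable (fun a => conj a ^ k * G F l a) mu1 :=
    (integrable_const_mul_iff (IsUnit.mk0 _ hpi) _).mp h2
  rw [integral_const_mul, moment _ (differentiable_G l F hF) k h3]
  unfold D
  ring

end Pool.Agent.Helper421.Taylor2
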