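import Mathlib
import Pool.Agent.Helper421.Taylor2

set_option autoImplicit false

open MeasureTheory Complex Set Filter
open scoped Real Topology ComplexConjugate InnerProductSpace

namespace Pool.Agent.Helper421.Basis2

open Pool.Agent.Helper421.Gauss1 Pool.Agent.Helper421.FockDefs Pool.Agent.Helper421.Gauss2
  Pool.Agent.Helper421.Taylor2

lemma inner_toLp {f g : (Fin 2 → ℂ) → ℂ} (hf : MemLp f 2 (gaussMeasure 2))
    (hg : MemLp g 2 (gaussMeasure 2)) :
    ⟪hf.toLp f, hg.toLp g⟫_ℂ = ∫ z, conj (f z) * g z ∂(gaussMeasure 2) := by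
  rw [L2.inner_def]
  apply integral_congr_ae
  filter_upwards [hf.coeFn_toLp, hg.coeFn_toLp] with z h1 h2
  rw [h1, h2, RCLike.inner_apply]
  ring

/-- the norm of a monomial -/
noncomputable def nrm (p : ℕ × ℕ) : ℝ := π * Real.sqrt ((Nat.factorial p.1) * (Nat.factorial p.2))

lemma nrm_pos (p : ℕ × ℕ) : 0 < nrm p := by
  unfold nrm
  have : (0 : ℝ) < (Nat.factorial p.1) * (Nat.factorial p.2) := by positivity
  positivity

lemma nrm_sq (p : ℕ × ℕ) : nrm p ^ 2 = π ^ 2 * ((Nat.factorial p.1) * (Nat.factorial p.2)) := by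
  unfold nrm
  rw [mul_pow, Real.sq_sqrt (by positivity)]

lemma nrm_sq' (p : ℕ × ℕ) : (nrm p : ℂ) ^ 2 = (π : ℂ) ^ 2 *
    (((Nat.factorial p.1 : ℕ) : ℂ) * ((Nat.factorial p.2 : ℕ) : ℂ)) := by
  exact_mod_cast nrm_sq p

lemma memLp_emon (p : ℕ × ℕ) : MemLp (fun z => (nrm p : ℂ)⁻¹ * mon p z) 2 (gaussMeasure 2) :=
  (memLp_mon p).const_mul _

/-- the class of a normalised monomial -/
noncomputable def e (p : ℕ × ℕ) : Lp ℂ 2 (gaussMeasure 2) := (memLp_emon p).toLp _

lemma e_eq (p : ℕ × ℕ) : e p = (nrm p : ℂ)⁻¹ • (memLp_mon p).toLp (mon p) := by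
  unfold e
  rw [← MemLp.toLp_const_smul]
  rfl

lemma inner_wt (q p a : ℕ × ℕ) :
    ⟪(memLp_mon q).toLp (mon q), (memLp_wt_mon a p).toLp (fun z => wt a z * mon p z)⟫_ℂ =
      if q = p then (π : ℂ) ^ 2 * ((Nat.factorial (p.1 + a.1) : ℕ) * (Nat.factorial (p.2 + a.2) : ℕ))
      else 0 := by
  rw [inner_toLp, integral_mon]

lemma inner_mon (q p : ℕ × ℕ) :
    ⟪(memLp_mon q).toLp (mon q), (memLp_mon p).toLp (mon p)⟫_ℂ =
      if q = p then (nrm p : ℂ) ^ 2 else 0 := by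
  have h := integral_mon q p (0, 0)
  rw [inner_toLp]
  simp only [wt, mul_zero, pow_zero, Complex.ofReal_one, one_mul, add_zero] at h
  rw [h, nrm_sq']

lemma orthonormal_e : Orthonormal ℂ e := by
  rw [orthonormal_iff_ite]
  intro q p
  rw [e_eq, e_eq, inner_smul_left, inner_smul_right, inner_mon]
  have := (nrm_pos p).ne'
  have h2 : (nrm p : ℂ) ≠ 0 := by exact_mod_cast this
  split_ifs with h
  · subst h
    rw [map_inv₀, Complex.conj_ofReal]
    field_simp
  · simp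

lemma summable_emon_sq (z : Fin 2 → ℂ) :
    Summable (fun p : ℕ × ℕ => ‖(nrm p : ℂ)⁻¹ * mon p z‖ ^ 2) := by
  have h1 := Real.summable_pow_div_factorial (‖z 0‖ ^ 2)
  have h2 := Real.summable_pow_div_factorial (‖z 1‖ ^ 2)
  have h3 := (h1.mul_of_nonneg h2 (fun n => by positivity) (fun n => by positivity)).mul_left
    ((π ^ 2)⁻¹)
  refine h3.congr (fun p => ?_)
  rw [norm_mul, mul_pow, norm_inv, Complex.norm_real, Real.norm_eq_abs, abs_of_pos (nrm_pos p),
    inv_pow, nrm_sq]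
  unfold mon
  rw [norm_mul, norm_pow, norm_pow]
  have hp : (π : ℝ) ≠ 0 := Real.pi_ne_zero
  field_simp
  ring

/-- entire functions are limits of polynomials -/
lemma entire_mem (F : (Fin 2 → ℂ) → ℂ) (hF : AnalyticOnNhd ℂ F univ)
    (hL : MemLp F 2 (gaussMeasure 2)) :
    hL.toLp F ∈ (Submodule.span ℂ (Set.range e)).topologicalClosure := by
  obtain ⟨c, hc⟩ : ∃ c : ℕ × ℕ → ℂ, c = fun p => ⟪e p, hL.toLp F⟫_ℂ := ⟨_, rfl⟩
  have hsq : Summable (fun p => ‖c p‖ ^ 2) := by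
    rw [hc]; exact orthonormal_e.inner_products_summable _
  have hsum : Summable (fun p => c p • e p) := by
    have h := orthonormal_e.orthogonalFamily.summable_iff_norm_sq_summable c
    have h' := h.mpr hsq
    exact h'
  obtain ⟨g, hg⟩ := hsum
  have hmem : g ∈ (Submodule.span ℂ (Set.range e)).topologicalClosure := by
    have h1 : ∀ S : Finset (ℕ × ℕ), ∑ p ∈ S, c p • e p ∈
        ((Submodule.span ℂ (Set.range e) : Submodule ℂ _) : Set (Lp ℂ 2 (gaussMeasure 2))) := by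
      intro S
      apply Submodule.sum_mem
      intro p _
      exact Submodule.smul_mem _ _ (Submodule.subset_span ⟨p, rfl⟩)
    exact mem_closure_of_tendsto hg (Filter.Eventually.of_forall h1)
  -- coefficients
  have hcp : ∀ p, c p * (nrm p : ℂ)⁻¹ =
      ((Nat.factorial p.1 : ℕ) : ℂ)⁻¹ * ((Nat.factorial p.2 : ℕ) : ℂ)⁻¹ * D F p := by
    intro p
    have h1 : c p = (nrm p : ℂ)⁻¹ * ((π : ℂ) ^ 2 * D F p) := by
      rw [hc]
      simp only
      rw [e_eq, inner_smul_left, inner_toLp, coeff F hF hL p, map_inv₀, Complex.conj_ofReal]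
    rw [h1]
    have h2 := nrm_sq' p
    have h3 : (nrm p : ℂ) ≠ 0 := by exact_mod_cast (nrm_pos p).ne'
    have h4 : ((Nat.factorial p.1 : ℕ) : ℂ) ≠ 0 := by exact_mod_cast Nat.factorial_ne_zero _
    have h5 : ((Nat.factorial p.2 : ℕ) : ℂ) ≠ 0 := by exact_mod_cast Nat.factorial_ne_zero _
    field_simp
    rw [h2]
    ring
  have hpt : ∀ z, HasSum (fun p => c p * ((nrm p : ℂ)⁻¹ * mon p z)) (F z) := by
    intro z
    have hs : Summable (fun p => c p * ((nrm p : ℂ)⁻¹ * mon p z)) := by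
      apply Summable.of_norm
      have h6 := (hsq.add (summable_emon_sq z)).mul_left (1 / 2)
      refine Summable.of_nonneg_of_le (fun p => norm_nonneg _) (fun p => ?_) h6
      rw [norm_mul]
      nlinarith [sq_nonneg (‖c p‖ - ‖(nrm p : ℂ)⁻¹ * mon p z‖)]
    have e1 : (fun p => c p * ((nrm p : ℂ)⁻¹ * mon p z)) =
        fun p : ℕ × ℕ => (((Nat.factorial p.1 : ℕ) : ℂ)⁻¹ *
          ((Nat.factorial p.2 : ℕ) : ℂ)⁻¹ * D F p) * mon p z := by
      ext p
      rw [← hcp]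
      ring
    rw [e1] at hs ⊢
    exact taylor_sum F hF z hs
  have hgF : hL.toLp F = g := by
    have hten : Tendsto (fun S : Finset (ℕ × ℕ) => ∑ p ∈ S, c p • e p) atTop (𝓝 g) := hg
    obtain ⟨ns, hns1, hns2⟩ := (tendstoInMeasure_of_tendsto_Lp hten).exists_seq_tendsto_ae'
    have hae : ∀ᵐ z ∂(gaussMeasure 2), ∀ p, (e p : (Fin 2 → ℂ) → ℂ) z = (nrm p : ℂ)⁻¹ * mon p z := by
      rw [ae_all_iff]
      intro p
      exact (memLp_emon p).coeFn_toLp
    have hsumae : ∀ S : Finset (ℕ × ℕ), ∀ᵐ z ∂(gaussMeasure 2),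
        ((∑ p ∈ S, c p • e p : Lp ℂ 2 (gaussMeasure 2)) : (Fin 2 → ℂ) → ℂ) z =
        ∑ p ∈ S, c p * (e p : (Fin 2 → ℂ) → ℂ) z := by
      classical
      intro S
      induction S using Finset.induction_on with
      | empty =>
        simp only [Finset.sum_empty]
        filter_upwards [Lp.coeFn_zero ℂ 2 (gaussMeasure 2)] with z hz
        rw [hz]; rfl
      | insert a S ha ih =>
        rw [Finset.sum_insert ha]
        filter_upwards [ih, Lp.coeFn_add (c a • e a) (∑ p ∈ S, c p • e p),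
          Lp.coeFn_smul (c a) (e a)] with z h1 h2 h3
        rw [h2, Pi.add_apply, h1, h3, Finset.sum_insert ha]
        rfl
    have hsumae' : ∀ᵐ z ∂(gaussMeasure 2), ∀ i,
        ((∑ p ∈ ns i, c p • e p : Lp ℂ 2 (gaussMeasure 2)) : (Fin 2 → ℂ) → ℂ) z =
        ∑ p ∈ ns i, c p * (e p : (Fin 2 → ℂ) → ℂ) z := by
      rw [ae_all_iff]
      intro i
      exact hsumae (ns i)
    apply Lp.ext
    filter_upwards [hns2, hae, hsumae', hL.coeFn_toLp] with z h1 h2 h3 h4
    rw [h4]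
    have h5 : Tendsto (fun i => ∑ p ∈ ns i, c p * ((nrm p : ℂ)⁻¹ * mon p z)) atTop (𝓝 (F z)) :=
      (hpt z).comp hns1
    have h6 : (fun i => ((∑ p ∈ ns i, c p • e p : Lp ℂ 2 (gaussMeasure 2)) :
        (Fin 2 → ℂ) → ℂ) z) = fun i => ∑ p ∈ ns i, c p * ((nrm p : ℂ)⁻¹ * mon p z) := by
      ext i
      rw [h3 i]
      apply Finset.sum_congr rfl
      intro p _
      rw [h2 p]
    rw [h6] at h1
    exact tendsto_nhds_unique h5 h1
  rw [hgF]
  exact hmem

end Pool.Agent.Helper421.Basis2
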