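import Mathlib
import Pool.Agent.Helper421.Basis2

set_option autoImplicit false

open MeasureTheory Complex Set Filter
open scoped Real Topology ComplexConjugate InnerProductSpace

namespace Pool.Agent.Helper421.Fock2

open Pool.Agent.Helper421.Gauss1 Pool.Agent.Helper421.FockDefs Pool.Agent.Helper421.Gauss2
  Pool.Agent.Helper421.Taylor2 Pool.Agent.Helper421.Basis2 Pool.Agent.Helper421.CompactRes

lemma analytic_mon (p : ℕ × ℕ) (c : ℂ) : AnalyticOnNhd ℂ (fun z => c * mon p z) univ := by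
  intro z _
  have h0 : AnalyticAt ℂ (fun z : Fin 2 → ℂ => z 0) z :=
    (ContinuousLinearMap.proj (R := ℂ) (φ := fun _ : Fin 2 => ℂ) 0).analyticAt z
  have h1 : AnalyticAt ℂ (fun z : Fin 2 → ℂ => z 1) z :=
    (ContinuousLinearMap.proj (R := ℂ) (φ := fun _ : Fin 2 => ℂ) 1).analyticAt z
  exact analyticAt_const.mul ((h0.pow p.1).mul (h1.pow p.2))

lemma e_mem (p : ℕ × ℕ) : e p ∈ Fock 2 := by
  apply Submodule.le_topologicalClosure
  exact ⟨_, analytic_mon p _, (memLp_emon p).coeFn_toLp⟩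

lemma entireClasses_le :
    entireClasses 2 ≤ (Submodule.span ℂ (Set.range e)).topologicalClosure := by
  rintro f ⟨F, hF, hfF⟩
  have hL : MemLp F 2 (gaussMeasure 2) := (memLp_congr_ae hfF).mp (Lp.memLp f)
  have : f = hL.toLp F := by
    apply Lp.ext
    exact hfF.trans hL.coeFn_toLp.symm
  rw [this]
  exact entire_mem F hF hL

lemma fock_le : Fock 2 ≤ (Submodule.span ℂ (Set.range e)).topologicalClosure :=
  Submodule.topologicalClosure_minimal _ entireClasses_le (Submodule.isClosed_topologicalClosure _)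

/-- the orthonormal basis vectors of the Fock space -/
noncomputable def eF (p : ℕ × ℕ) : Fock 2 := ⟨e p, e_mem p⟩

lemma orthonormal_eF : Orthonormal ℂ eF := by
  rw [orthonormal_iff_ite]
  intro q p
  exact (orthonormal_iff_ite.mp orthonormal_e) q p

lemma ext_e {x : Lp ℂ 2 (gaussMeasure 2)}
    (hx : x ∈ (Submodule.span ℂ (Set.range e)).topologicalClosure)
    (h : ∀ p, ⟪e p, x⟫_ℂ = 0) : x = 0 := by
  have h1 : x ∈ (Submodule.span ℂ (Set.range e))ᗮ := by
    rw [Submodule.mem_orthogonal]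
    intro u hu
    induction hu using Submodule.span_induction with
    | mem y hy =>
      obtain ⟨p, rfl⟩ := hy
      exact h p
    | zero => simp
    | add a b _ _ ha hb => rw [inner_add_left, ha, hb, add_zero]
    | smul c a _ ha => rw [inner_smul_left, ha, mul_zero]
  rw [← Submodule.orthogonal_closure] at h1
  have h2 := (Submodule.mem_orthogonal _ _).mp h1 x hx
  exact inner_self_eq_zero.mp h2

lemma eF_dense : (Submodule.span ℂ (Set.range eF))ᗮ = ⊥ := by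
  rw [Submodule.eq_bot_iff]
  intro x hx
  have h1 : (x : Lp ℂ 2 (gaussMeasure 2)) = 0 := by
    apply ext_e (fock_le x.2)
    intro p
    have := (Submodule.mem_orthogonal _ _).mp hx (eF p) (Submodule.subset_span ⟨p, rfl⟩)
    exact this
  exact Subtype.ext h1

/-- the Hilbert basis of normalised monomials -/
noncomputable def bF : HilbertBasis (ℕ × ℕ) ℂ (Fock 2) :=
  HilbertBasis.mkOfOrthogonalEqBot orthonormal_eF eF_dense

lemma bF_apply (p : ℕ × ℕ) : bF p = eF p := by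
  unfold bF
  rw [HilbertBasis.coe_mkOfOrthogonalEqBot]

/-- the data of a radial (real) symbol, with the eigenvalues `d` of its Toeplitz operator -/
structure Diag (φ : (Fin 2 → ℂ) → ℂ) (d : ℕ × ℕ → ℝ) : Prop where
  real : ∀ z, conj (φ z) = φ z
  mem : ∀ p, MemLp (fun z => φ z * mon p z) 2 (gaussMeasure 2)
  int : ∀ q p, ∫ z, conj (mon q z) * (φ z * mon p z) ∂(gaussMeasure 2) =
    if q = p then (d p : ℂ) * (nrm p : ℂ) ^ 2 else 0

variable {φ : (Fin 2 → ℂ) → ℂ} {d : ℕ × ℕ → ℝ}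

lemma Diag.memLp (h : Diag φ d) (p : ℕ × ℕ) :
    MemLp (fun z => (nrm p : ℂ)⁻¹ * (φ z * mon p z)) 2 (gaussMeasure 2) :=
  (h.mem p).const_mul _

/-- `P (φ e_p) = d_p e_p` -/
lemma Diag.proj (h : Diag φ d) (p : ℕ × ℕ) :
    (Fock 2).orthogonalProjectionOnto ((h.memLp p).toLp _) = (d p : ℂ) • eF p := by
  apply ext_coeff bF
  intro q
  have h1 : ⟪eF q, eF p⟫_ℂ = if q = p then 1 else 0 := orthonormal_iff_ite.mp orthonormal_eF q p
  have h0 : ⟪eF q, (d p : ℂ) • eF p⟫_ℂ = (d p : ℂ) * if q = p then 1 else 0 := by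
    rw [← h1]
    exact inner_smul_right (𝕜 := ℂ) (E := Fock 2) (eF q) (eF p) (d p : ℂ)
  rw [bF_apply, Submodule.inner_orthogonalProjectionOnto_eq_of_mem_left]
  refine Eq.trans ?_ h0.symm
  show ⟪e q, _⟫_ℂ = _
  unfold e
  rw [inner_toLp]
  have h2 : ∀ z, conj ((nrm q : ℂ)⁻¹ * mon q z) * ((nrm p : ℂ)⁻¹ * (φ z * mon p z)) =
      ((nrm q : ℂ)⁻¹ * (nrm p : ℂ)⁻¹) * (conj (mon q z) * (φ z * mon p z)) := by
    intro z
    rw [map_mul, map_inv₀, Complex.conj_ofReal]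
    ring
  simp_rw [h2]
  rw [integral_const_mul, h.int]
  split_ifs with hqp
  · subst hqp
    have h3 : (nrm q : ℂ) ≠ 0 := by exact_mod_cast (nrm_pos q).ne'
    field_simp
  · simp

lemma Diag.ae_eq (_h : Diag φ d) (p : ℕ × ℕ) :
    (fun z => φ z * ((eF p : Lp ℂ 2 (gaussMeasure 2)) : (Fin 2 → ℂ) → ℂ) z) =ᵐ[gaussMeasure 2]
    (fun z => (nrm p : ℂ)⁻¹ * (φ z * mon p z)) := by
  have h1 : ((eF p : Lp ℂ 2 (gaussMeasure 2)) : (Fin 2 → ℂ) → ℂ) =ᵐ[gaussMeasure 2]
    fun z => (nrm p : ℂ)⁻¹ * mon p z := (memLp_emon p).coeFn_toLp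
  filter_upwards [h1] with z hz
  rw [hz]
  ring

lemma Diag.mem_domain (h : Diag φ d) (p : ℕ × ℕ) : eF p ∈ (toeplitz 2 φ).domain :=
  (memLp_congr_ae (h.ae_eq p)).mpr (h.memLp p)

lemma Diag.apply_eF (h : Diag φ d) (p : ℕ × ℕ) :
    toeplitz 2 φ ⟨eF p, h.mem_domain p⟩ = (d p : ℂ) • eF p := by
  rw [← h.proj p]
  show (Fock 2).orthogonalProjectionOnto (mulClass 2 φ ⟨eF p, h.mem_domain p⟩) = _
  congr 1
  exact MemLp.toLp_congr (memLp_of_mem_toeplitzDomain (h.mem_domain p)) (h.memLp p) (h.ae_eq p)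

lemma Diag.inner_apply (h : Diag φ d) (f : (toeplitz 2 φ).domain) (p : ℕ × ℕ) :
    ⟪eF p, toeplitz 2 φ f⟫_ℂ = (d p : ℂ) * ⟪eF p, (f : Fock 2)⟫_ℂ := by
  have h1 : ⟪eF p, toeplitz 2 φ f⟫_ℂ =
      ⟪e p, (mulClass 2 φ f : Lp ℂ 2 (gaussMeasure 2))⟫_ℂ := by
    show ⟪eF p, (Fock 2).orthogonalProjectionOnto (mulClass 2 φ f)⟫_ℂ = _
    rw [Submodule.inner_orthogonalProjectionOnto_eq_of_mem_left]
    rfl
  have h2 : ⟪e p, (mulClass 2 φ f : Lp ℂ 2 (gaussMeasure 2))⟫_ℂ =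
      ⟪(h.memLp p).toLp _, ((f : Fock 2) : Lp ℂ 2 (gaussMeasure 2))⟫_ℂ := by
    rw [L2.inner_def, L2.inner_def]
    apply integral_congr_ae
    have h3 : (mulClass 2 φ f : Lp ℂ 2 (gaussMeasure 2)) =ᵐ[gaussMeasure 2]
        fun z => φ z * ((f : Fock 2) : Lp ℂ 2 (gaussMeasure 2)) z :=
      (memLp_of_mem_toeplitzDomain f.2).coeFn_toLp
    have h4 : (e p : (Fin 2 → ℂ) → ℂ) =ᵐ[gaussMeasure 2]
        fun z => (nrm p : ℂ)⁻¹ * mon p z := (memLp_emon p).coeFn_toLp
    filter_upwards [h3, h4, (h.memLp p).coeFn_toLp] with z h5 h6 h7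
    rw [h5, h6, h7, RCLike.inner_apply, RCLike.inner_apply]
    simp only [map_mul, h.real z]
    ring
  rw [h1, h2]
  have h8 : ⟪(h.memLp p).toLp _, ((f : Fock 2) : Lp ℂ 2 (gaussMeasure 2))⟫_ℂ =
      ⟪(Fock 2).orthogonalProjectionOnto ((h.memLp p).toLp _), (f : Fock 2)⟫_ℂ := by
    rw [Submodule.inner_orthogonalProjectionOnto_eq_of_mem_right]
  rw [h8, h.proj p, inner_smul_left, Complex.conj_ofReal]

lemma Diag.isClosable (h : Diag φ d) : (toeplitz 2 φ).IsClosable := by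
  apply isClosable_of_diag bF _ d
  intro f i
  rw [bF_apply]
  exact h.inner_apply f i

lemma Diag.compact (h : Diag φ d) (h1 : ∀ p, 1 ≤ d p) (h2 : Tendsto d cofinite atTop) :
    HasCompactResolvent (toeplitz 2 φ).closure := by
  apply closure_hasCompactResolvent bF _ d h1 h2
  · intro p
    rw [bF_apply]
    exact ⟨h.mem_domain p, h.apply_eF p⟩
  · intro f i
    rw [bF_apply]
    exact h.inner_apply f i

lemma Diag.not_compact (h : Diag φ d) (c : ℝ) (h1 : ∀ k, d (k, 0) = c) :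
    ¬ HasCompactResolvent (toeplitz 2 φ).closure := by
  apply not_hasCompactResolvent _ (fun k => eF (k, 0)) _ (c : ℂ)
  · intro k
    refine ⟨h.mem_domain (k, 0), ?_⟩
    rw [h.apply_eF, h1 k]
  · exact orthonormal_eF.comp (fun k => (k, 0)) (fun a b hab => by simpa using hab)

end Pool.Agent.Helper421.Fock2
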