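import Mathlib
import Pool.Agent.Helper421.Fock2

set_option autoImplicit false

open MeasureTheory Complex Set Filter
open scoped Real Topology ComplexConjugate InnerProductSpace

namespace Pool.Agent.Helper421.FockExample

open Pool.Agent.Helper421.FockDefs Pool.Agent.Helper421.Gauss2
  Pool.Agent.Helper421.Taylor2 Pool.Agent.Helper421.Basis2 Pool.Agent.Helper421.CompactRes
  Pool.Agent.Helper421.Fock2

/-- `ψ = |z₀|² |z₁|²` -/
noncomputable def psi : MvPolynomial (Fin 2 ⊕ Fin 2) ℂ :=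
  (MvPolynomial.X (Sum.inl 0) * MvPolynomial.X (Sum.inr 0)) *
    (MvPolynomial.X (Sum.inl 1) * MvPolynomial.X (Sum.inr 1))

/-- `φ₁ = - |z₀|² - |z₁|²` -/
noncomputable def phi1 : MvPolynomial (Fin 2 ⊕ Fin 2) ℂ :=
  - (MvPolynomial.X (Sum.inl 0) * MvPolynomial.X (Sum.inr 0)) -
    (MvPolynomial.X (Sum.inl 1) * MvPolynomial.X (Sum.inr 1))

lemma psi_hom : psi.IsHomogeneous 4 := by
  have h : ∀ i : Fin 2 ⊕ Fin 2, (MvPolynomial.X i : MvPolynomial (Fin 2 ⊕ Fin 2) ℂ).IsHomogeneous 1 :=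
    fun i => MvPolynomial.isHomogeneous_X ℂ i
  exact ((h _).mul (h _)).mul ((h _).mul (h _))

lemma phi1_deg : phi1.totalDegree ≤ 3 := by
  have h : ∀ i j : Fin 2 ⊕ Fin 2, ((MvPolynomial.X i : MvPolynomial (Fin 2 ⊕ Fin 2) ℂ) *
      MvPolynomial.X j).totalDegree ≤ 2 := by
    intro i j
    refine (MvPolynomial.totalDegree_mul _ _).trans ?_
    rw [MvPolynomial.totalDegree_X, MvPolynomial.totalDegree_X]
  unfold phi1
  refine (MvPolynomial.totalDegree_sub _ _).trans ?_
  rw [MvPolynomial.totalDegree_neg]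
  exact (max_le (h _ _) (h _ _)).trans (by norm_num)

lemma mul_conj_eq (w : ℂ) : w * conj w = ((‖w‖ ^ 2 : ℝ) : ℂ) := by
  rw [Complex.mul_conj']
  push_cast
  rfl

lemma symbol_psi (z : Fin 2 → ℂ) : symbol psi z = wt (1, 1) z := by
  unfold symbol psi wt
  simp only [map_mul, MvPolynomial.eval_X, Sum.elim_inl, Sum.elim_inr, mul_one]
  rw [mul_conj_eq, mul_conj_eq]

lemma symbol_phi (z : Fin 2 → ℂ) :
    symbol (psi + phi1) z = wt (1, 1) z - wt (1, 0) z - wt (0, 1) z := by
  unfold symbol psi phi1 wt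
  simp only [map_mul, map_add, map_sub, map_neg, MvPolynomial.eval_X, Sum.elim_inl, Sum.elim_inr,
    mul_one, mul_zero, pow_zero, Complex.ofReal_one, one_mul]
  rw [mul_conj_eq, mul_conj_eq]
  ring

lemma wt_real (a : ℕ × ℕ) (z : Fin 2 → ℂ) : conj (wt a z) = wt a z := by
  unfold wt
  rw [map_mul, Complex.conj_ofReal, Complex.conj_ofReal]

lemma diag_psi : Diag (symbol psi) (fun p => ((p.1 : ℝ) + 1) * ((p.2 : ℝ) + 1)) where
  real z := by rw [symbol_psi, wt_real]
  mem p := by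
    simp_rw [symbol_psi]
    exact memLp_wt_mon (1, 1) p
  int q p := by
    simp_rw [symbol_psi]
    rw [integral_mon]
    congr 1
    rw [nrm_sq', Nat.factorial_succ, Nat.factorial_succ]
    push_cast
    ring

lemma diag_phi : Diag (symbol (psi + phi1)) (fun p => (p.1 : ℝ) * (p.2 : ℝ) - 1) where
  real z := by
    rw [symbol_phi, map_sub, map_sub, wt_real, wt_real, wt_real]
  mem p := by
    simp_rw [symbol_phi]
    have h := ((memLp_wt_mon (1, 1) p).sub (memLp_wt_mon (1, 0) p)).sub (memLp_wt_mon (0, 1) p)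
    refine (memLp_congr_ae (Filter.Eventually.of_forall fun z => ?_)).mp h
    simp only [Pi.sub_apply]
    ring
  int q p := by
    simp_rw [symbol_phi]
    have hi : ∀ a, Integrable (fun z => conj (mon q z) * (wt a z * mon p z)) (gaussMeasure 2) :=
      fun a => (memLp_conj_mon q).integrable_mul (memLp_wt_mon a p)
    have h1 : ∀ z, conj (mon q z) * ((wt (1, 1) z - wt (1, 0) z - wt (0, 1) z) * mon p z) =
        conj (mon q z) * (wt (1, 1) z * mon p z) - conj (mon q z) * (wt (1, 0) z * mon p z) -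
        conj (mon q z) * (wt (0, 1) z * mon p z) := by
      intro z; ring
    simp_rw [h1]
    have h2 : Integrable (fun z => conj (mon q z) * (wt (1, 1) z * mon p z) -
        conj (mon q z) * (wt (1, 0) z * mon p z)) (gaussMeasure 2) := (hi _).sub (hi _)
    rw [integral_sub h2 (hi _), integral_sub (hi _) (hi _),
      integral_mon, integral_mon, integral_mon]
    split_ifs with hqp
    · rw [nrm_sq', add_zero, add_zero, Nat.factorial_succ, Nat.factorial_succ]
      push_cast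
      ring
    · simp

lemma d_tendsto : Tendsto (fun p : ℕ × ℕ => ((p.1 : ℝ) + 1) * ((p.2 : ℝ) + 1)) cofinite atTop := by
  rw [tendsto_atTop]
  intro b
  rw [eventually_cofinite]
  apply (Finset.finite_toSet (Finset.range (⌈b⌉₊ + 1) ×ˢ Finset.range (⌈b⌉₊ + 1))).subset
  rintro ⟨k, l⟩ h
  have h1 : ((k : ℝ) + 1) * ((l : ℝ) + 1) < b := not_le.mp h
  have hb : b ≤ (⌈b⌉₊ : ℝ) := Nat.le_ceil b
  have hk : (k : ℝ) < ⌈b⌉₊ := by
    have : (k : ℝ) + 1 ≤ ((k : ℝ) + 1) * ((l : ℝ) + 1) := by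
      have hl : (0 : ℝ) ≤ l := Nat.cast_nonneg l
      have hk' : (0 : ℝ) ≤ k := Nat.cast_nonneg k
      nlinarith
    linarith
  have hl : (l : ℝ) < ⌈b⌉₊ := by
    have : (l : ℝ) + 1 ≤ ((k : ℝ) + 1) * ((l : ℝ) + 1) := by
      have hl' : (0 : ℝ) ≤ l := Nat.cast_nonneg l
      have hk' : (0 : ℝ) ≤ k := Nat.cast_nonneg k
      nlinarith
    linarith
  have hk2 : k < ⌈b⌉₊ := by exact_mod_cast hk
  have hl2 : l < ⌈b⌉₊ := by exact_mod_cast hl
  simp only [Finset.coe_product, Finset.coe_range, Set.mem_prod, Set.mem_Iio]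
  omega

theorem old_result :
    (toeplitz 2 (symbol psi)).IsClosable ∧ (toeplitz 2 (symbol (psi + phi1))).IsClosable ∧
    HasCompactResolvent (toeplitz 2 (symbol psi)).closure ∧
    ¬ HasCompactResolvent (toeplitz 2 (symbol (psi + phi1))).closure := by
  refine ⟨diag_psi.isClosable, diag_phi.isClosable, ?_, ?_⟩
  · apply diag_psi.compact _ d_tendsto
    rintro ⟨k, l⟩
    have hl' : (0 : ℝ) ≤ l := Nat.cast_nonneg l
    have hk' : (0 : ℝ) ≤ k := Nat.cast_nonneg k
    show 1 ≤ ((k : ℝ) + 1) * ((l : ℝ) + 1)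
    nlinarith [mul_nonneg hk' hl']
  · apply diag_phi.not_compact (-1)
    intro k
    simp

end Pool.Agent.Helper421.FockExample
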